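import Mathlib

/-!
# The monoids `M(W)` and finitely related semigroups
-/

set_option autoImplicit false

namespace Pool.Agent.Lib.MP_09f634_al

/-- Words over the countably infinite alphabet `ℕ`. -/
abbrev Word := FreeMonoid ℕ

/-- The subwords (factors) of the words of `W`. -/
def Subwords (W : Set Word) : Set Word := {v | ∃ w ∈ W, ∃ p q : Word, w = p * v * q}

lemma Sub_left {W : Set Word} {u v : Word} (h : u * v ∈ Subwords W) : u ∈ Subwords W := by
  obtain ⟨w, hw, p, q, rfl⟩ := h
  exact ⟨_, hw, p, v * q, by simp only [mul_assoc]⟩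

lemma Sub_right {W : Set Word} {u v : Word} (h : u * v ∈ Subwords W) : v ∈ Subwords W := by
  obtain ⟨w, hw, p, q, rfl⟩ := h
  exact ⟨_, hw, p * u, q, by simp only [mul_assoc]⟩

/-- The Rees congruence on the free monoid given by the ideal `I_W` of all words that are not
subwords of any word of `W`. -/
def reesCon (W : Set Word) : Con Word where
  r u v := u = v ∨ (u ∉ Subwords W ∧ v ∉ Subwords W)
  iseqv :=
    { refl := fun _ => Or.inl rfl
      symm := by
        rintro u v (h | ⟨h1, h2⟩)
        · exact Or.inl h.symm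
        · exact Or.inr ⟨h2, h1⟩
      trans := by
        rintro u v w (rfl | ⟨h1, h2⟩) (rfl | ⟨h3, h4⟩)
        · exact Or.inl rfl
        · exact Or.inr ⟨h3, h4⟩
        · exact Or.inr ⟨h1, h2⟩
        · exact Or.inr ⟨h1, h4⟩ }
  mul' := by
    rintro u u' v v' (rfl | ⟨h1, h2⟩) (rfl | ⟨h3, h4⟩)
    · exact Or.inl rfl
    · exact Or.inr ⟨fun h => h3 (Sub_right h), fun h => h4 (Sub_right h)⟩
    · exact Or.inr ⟨fun h => h1 (Sub_left h), fun h => h2 (Sub_left h)⟩
    · exact Or.inr ⟨fun h => h1 (Sub_left h), fun h => h2 (Sub_left h)⟩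

/-- The monoid `M(W) = X^*/I_W`. -/
abbrev M (W : Set Word) : Type := (reesCon W).Quotient

/-- `f` is a term operation of the semigroup `S`: it is given by a semigroup word. -/
def IsTermOp {S : Type} [Semigroup S] {k : ℕ} (f : (Fin k → S) → S) : Prop :=
  ∃ t : FreeSemigroup (Fin k), ∀ a : Fin k → S, f a = FreeSemigroup.lift a t

/-- The operation `f` preserves the relation `R`: `f` applied coordinatewise to tuples of `R` gives
a tuple of `R`. -/
def Preserves {S : Type} {k r : ℕ} (f : (Fin k → S) → S) (R : Set (Fin r → S)) : Prop :=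
  ∀ A : Fin k → Fin r → S, (∀ i, A i ∈ R) → (fun j => f (fun i => A i j)) ∈ R

/-- The semigroup `S` is finitely related: for some finite set of finitary relations on `S` the term
operations are exactly the operations preserving all relations of the set. -/
def FinitelyRelated (S : Type) [Semigroup S] : Prop :=
  ∃ ℛ : Set (Σ r : ℕ, Set (Fin r → S)), ℛ.Finite ∧
    ∀ (k : ℕ) (f : (Fin k → S) → S), 0 < k →
      (IsTermOp f ↔ ∀ R ∈ ℛ, Preserves f R.2)

end Pool.Agent.Lib.MP_09f634_al
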