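import Mathlib
import Pool.Agent.Lib.MP_09f634_al.Defs

/-!
# Local characterisation of finite relatedness
-/

set_option autoImplicit false

namespace Pool.Agent.Lib.MP_09f634_al

/-- `f` agrees with a term operation on any `r` points. -/
def LocalTerm {S : Type} [Semigroup S] {k : ℕ} (r : ℕ) (f : (Fin k → S) → S) : Prop :=
  ∀ P : Fin r → (Fin k → S), ∃ t : FreeSemigroup (Fin k),
    ∀ j, f (P j) = FreeSemigroup.lift (P j) t

lemma lift_comp {S : Type} [Semigroup S] {k n : ℕ} (t : FreeSemigroup (Fin k))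
    (s : Fin k → FreeSemigroup (Fin n)) (a : Fin n → S) :
    FreeSemigroup.lift a (FreeSemigroup.lift s t) =
      FreeSemigroup.lift (fun i => FreeSemigroup.lift a (s i)) t := by
  have h : (FreeSemigroup.lift a).comp (FreeSemigroup.lift s) =
      FreeSemigroup.lift (fun i => FreeSemigroup.lift a (s i)) := by
    apply FreeSemigroup.hom_ext
    funext i
    simp
  have := congrArg (fun g => g t) h
  simpa using this

theorem finitelyRelated_iff_local {S : Type} [Semigroup S] [Finite S] :
    FinitelyRelated S ↔ ∃ r : ℕ, ∀ (k : ℕ) (f : (Fin k → S) → S), 0 < k →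
      LocalTerm r f → IsTermOp f := by
  constructor
  · rintro ⟨ℛ, hfin, h⟩
    obtain ⟨r, hr⟩ : ∃ r : ℕ, ∀ R ∈ ℛ, R.1 ≤ r := by
      have := (hfin.image (fun R => R.1)).bddAbove
      obtain ⟨r, hr⟩ := this
      exact ⟨r, fun R hR => hr ⟨R, hR, rfl⟩⟩
    refine ⟨r, fun k f hk hloc => (h k f hk).mpr ?_⟩
    intro R hR A hA
    have hle := hr R hR
    rcases Nat.eq_zero_or_pos R.1 with h0 | hpos
    · have hs : Subsingleton (Fin R.1 → S) := by
        rw [h0]; infer_instance
      rw [Subsingleton.elim (fun j => f (fun i => A i j)) (A ⟨0, hk⟩)]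
      exact hA _
    · obtain ⟨t, ht⟩ := hloc (fun j i => if hj : (j : ℕ) < R.1 then A i ⟨j, hj⟩
        else A ⟨0, hk⟩ ⟨0, hpos⟩)
      have h1 := (h k (fun a => FreeSemigroup.lift a t) hk).mp ⟨t, fun _ => rfl⟩ R hR A hA
      have h2 : (fun j => f (fun i => A i j)) =
          (fun j => FreeSemigroup.lift (fun i => A i j) t) := by
        funext j
        have h3 := ht ⟨j, lt_of_lt_of_le j.2 hle⟩
        simpa using h3
      rw [h2]
      exact h1
  · rintro ⟨r, hr⟩
    refine ⟨{R | R.1 = r ∧ ∀ (k : ℕ) (t : FreeSemigroup (Fin k)),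
      Preserves (fun a : Fin k → S => FreeSemigroup.lift a t) R.2}, ?_, ?_⟩
    · apply Set.Finite.subset (Set.finite_range
        (fun R : Set (Fin r → S) => (⟨r, R⟩ : Σ r : ℕ, Set (Fin r → S))))
      rintro ⟨r', R⟩ ⟨h1, -⟩
      simp only at h1
      subst h1
      exact ⟨R, rfl⟩
    · intro k f hk
      constructor
      · rintro ⟨t, ht⟩ R hR
        have : f = fun a => FreeSemigroup.lift a t := funext ht
        rw [this]
        exact hR.2 k t
      · intro hf
        apply hr k f hk
        intro P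
        have key := hf ⟨r, Set.range (fun (t : FreeSemigroup (Fin k)) => fun j =>
          FreeSemigroup.lift (P j) t)⟩ ⟨rfl, ?_⟩ (fun i j => P j i) ?_
        · obtain ⟨t, ht⟩ := key
          refine ⟨t, fun j => ?_⟩
          have := congrFun ht j
          exact this.symm
        · intro n s A hA
          choose t ht using hA
          refine ⟨FreeSemigroup.lift t s, ?_⟩
          funext j
          simp only [lift_comp]
          congr 2
          funext i
          exact congrFun (ht i) j
        · intro i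
          exact ⟨FreeSemigroup.of i, by funext j; simp⟩

/-! ### Monoids: lists of letters -/

lemma lift_eq_prod {S : Type} [Monoid S] {k : ℕ} (t : FreeSemigroup (Fin k)) (a : Fin k → S) :
    FreeSemigroup.lift a t = ((t.head :: t.tail).map a).prod := by
  induction t using FreeSemigroup.recOnMul with
  | ih1 i => simp
  | ih2 x y hx hy =>
    rw [map_mul, hx, hy, ← List.prod_append, ← List.map_append]
    rfl

lemma exists_freeSemigroup {S : Type} [Monoid S] {k : ℕ} (l : List (Fin k)) (hl : l ≠ []) :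
    ∃ t : FreeSemigroup (Fin k), ∀ a : Fin k → S, FreeSemigroup.lift a t = (l.map a).prod := by
  obtain ⟨i, l', rfl⟩ := List.exists_cons_of_ne_nil hl
  exact ⟨⟨i, l'⟩, fun a => lift_eq_prod _ _⟩

/-- `f` agrees at each point of `P` with the list `l`. -/
lemma isTermOp_of_list {S : Type} [Monoid S] {k : ℕ} (f : (Fin k → S) → S) (l : List (Fin k))
    (hl : l ≠ []) (h : ∀ a, f a = (l.map a).prod) : IsTermOp f := by
  obtain ⟨t, ht⟩ := exists_freeSemigroup (S := S) l hl
  exact ⟨t, fun a => by rw [h, ht]⟩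

/-- Local interpolation on a finite set of points. -/
lemma LocalTerm.finset {S : Type} [Monoid S] {k r : ℕ} {f : (Fin k → S) → S}
    (h : LocalTerm r f) (P : Finset (Fin k → S)) (hP : P.card ≤ r) :
    ∃ l : List (Fin k), l ≠ [] ∧ ∀ a ∈ P, f a = (l.map a).prod := by
  classical
  obtain ⟨g, hg⟩ : ∃ g : Fin r → (Fin k → S), ∀ a ∈ P, ∃ j, g j = a := by
    let e := P.equivFin
    refine ⟨fun j => if hj : (j : ℕ) < P.card then (e.symm ⟨j, hj⟩ : Fin k → S) else 1, ?_⟩
    intro a ha
    refine ⟨⟨e ⟨a, ha⟩, lt_of_lt_of_le (e ⟨a, ha⟩).2 hP⟩, ?_⟩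
    simp
  obtain ⟨t, ht⟩ := h g
  refine ⟨t.head :: t.tail, by simp, ?_⟩
  intro a ha
  obtain ⟨j, rfl⟩ := hg a ha
  rw [ht j, lift_eq_prod]

end Pool.Agent.Lib.MP_09f634_al
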