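import Mathlib
import Pool.Agent.Lib.MP_09f634_al.Local

/-!
# Evaluation of words
-/

set_option autoImplicit false

namespace Pool.Agent.Lib.MP_09f634_al

/-- value of the word `l` at the point `w` -/
def ev {S : Type} [Monoid S] {k : ℕ} (l : List (Fin k)) (w : Fin k → S) : S := (l.map w).prod

section general

variable {S : Type} [Monoid S] {k : ℕ}

@[simp] lemma ev_nil (w : Fin k → S) : ev [] w = 1 := rfl

@[simp] lemma ev_cons (i : Fin k) (l : List (Fin k)) (w : Fin k → S) :
    ev (i :: l) w = w i * ev l w := by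
  simp [ev]

lemma ev_append (l l' : List (Fin k)) (w : Fin k → S) : ev (l ++ l') w = ev l w * ev l' w := by
  simp [ev]

lemma ev_congr (l : List (Fin k)) (w w' : Fin k → S) (h : ∀ i ∈ l, w i = w' i) :
    ev l w = ev l w' := by
  unfold ev
  rw [List.map_congr_left h]

lemma ev_filter (l : List (Fin k)) (p : Fin k → Prop) [DecidablePred p] (w : Fin k → S) :
    ev (l.filter (fun i => decide (p i))) w = ev l (fun i => if p i then w i else 1) := by
  induction l with
  | nil => simp
  | cons i l ih =>
    by_cases h : p i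
    · simp [h, ih]
    · simp [h, ih]

lemma ev_single (l : List (Fin k)) (i : Fin k) (u : S) :
    ev l (Pi.mulSingle i u) = u ^ l.count i := by
  induction l with
  | nil => simp
  | cons j l ih =>
    rw [ev_cons, ih, List.count_cons]
    by_cases h : j = i
    · subst h
      simp [pow_succ']
    · simp [h]

lemma ev_one (l : List (Fin k)) : ev l (1 : Fin k → S) = 1 := by
  induction l with
  | nil => simp
  | cons j l ih => simp [ih]

lemma ev_hom {T : Type} [Monoid T] (g : S →* T) (l : List (Fin k)) (w : Fin k → S) :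
    g (ev l w) = ev l (fun i => g (w i)) := by
  unfold ev
  rw [map_list_prod, List.map_map]
  rfl

end general

lemma sum_map_count {k : ℕ} (l : List (Fin k)) (g : Fin k → ℕ) :
    (l.map g).sum = ∑ i, l.count i * g i := by
  induction l with
  | nil => simp
  | cons j l ih =>
    rw [List.map_cons, List.sum_cons, ih]
    have : ∀ i, (j :: l).count i * g i = l.count i * g i + if j = i then g i else 0 := by
      intro i
      rw [List.count_cons]
      by_cases h : j = i
      · simp [h, add_mul]
      · simp [h]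
    simp only [this, Finset.sum_add_distrib, Finset.sum_ite_eq, Finset.mem_univ, if_true]
    ring

/-- number of occurrences of a letter in a word -/
def occ (x : ℕ) (v : Word) : ℕ := List.count x (FreeMonoid.toList v)

@[simp] lemma occ_one (x : ℕ) : occ x (1 : Word) = 0 := rfl

@[simp] lemma occ_mul (x : ℕ) (u v : Word) : occ x (u * v) = occ x u + occ x v := by
  simp [occ, FreeMonoid.toList_mul]

lemma occ_ev {k : ℕ} (x : ℕ) (l : List (Fin k)) (w : Fin k → Word) :
    occ x (ev l w) = ∑ i, l.count i * occ x (w i) := by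
  rw [← sum_map_count]
  induction l with
  | nil => simp
  | cons j l ih => simp [ih]

lemma length_ev {k : ℕ} (l : List (Fin k)) (w : Fin k → Word) :
    (ev l w).length = ∑ i, l.count i * (w i).length := by
  rw [← sum_map_count]
  induction l with
  | nil => simp
  | cons j l ih => simp [ih, FreeMonoid.length_mul]

lemma length_eq_zero' {v : Word} : v.length = 0 ↔ v = 1 := FreeMonoid.length_eq_zero

lemma exists_occ {v : Word} (h : v ≠ 1) : ∃ x, 0 < occ x v := by
  have h1 : FreeMonoid.toList v ≠ [] := by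
    intro h2
    exact h (FreeMonoid.toList.injective h2)
  obtain ⟨x, l, hl⟩ := List.exists_cons_of_ne_nil h1
  refine ⟨x, ?_⟩
  unfold occ
  rw [hl]
  simp

lemma length_pos' {v : Word} (h : v ≠ 1) : 1 ≤ v.length := by
  rcases Nat.eq_zero_or_pos v.length with h1 | h1
  · exact absurd (length_eq_zero'.mp h1) h
  · exact h1

/-- the number of nontrivial letters bounds the length from below -/
lemma card_le_length {k : ℕ} (l : List (Fin k)) (w : Fin k → Word) (Q : Finset (Fin k))
    (hQ : ∀ i ∈ Q, i ∈ l ∧ w i ≠ 1) : Q.card ≤ (ev l w).length := by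
  rw [length_ev]
  calc Q.card = ∑ i ∈ Q, 1 := by simp
    _ ≤ ∑ i ∈ Q, l.count i * (w i).length := by
        apply Finset.sum_le_sum
        intro i hi
        obtain ⟨h1, h2⟩ := hQ i hi
        have h3 : 1 ≤ l.count i := List.count_pos_iff.mpr h1
        exact Nat.one_le_iff_ne_zero.mpr (Nat.mul_ne_zero (by omega)
          (by have := length_pos' h2; omega))
    _ ≤ ∑ i, l.count i * (w i).length :=
        Finset.sum_le_sum_of_subset (Finset.subset_univ _)

lemma occ_le_ev {k : ℕ} (x : ℕ) (l : List (Fin k)) (w : Fin k → Word) (i : Fin k) :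
    l.count i * occ x (w i) ≤ occ x (ev l w) := by
  rw [occ_ev]
  exact Finset.single_le_sum (f := fun i => l.count i * occ x (w i)) (fun _ _ => Nat.zero_le _)
    (Finset.mem_univ i)

/-! ### The monoids `M(W)` -/

section M

variable {W : Set Word}

/-- class of a word -/
def cl (W : Set Word) : Word →* M W := (reesCon W).mk'

lemma cl_eq {u v : Word} : cl W u = cl W v ↔ u = v ∨ (u ∉ Subwords W ∧ v ∉ Subwords W) :=
  (reesCon W).eq

lemma cl_surj (W : Set Word) : Function.Surjective (cl W) := Con.mk'_surjective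

lemma cl_eq_of_notMem {u v : Word} (hu : u ∉ Subwords W) (hv : v ∉ Subwords W) : cl W u = cl W v :=
  cl_eq.mpr (Or.inr ⟨hu, hv⟩)

lemma cl_eq_iff_of_mem {u v : Word} (hu : u ∈ Subwords W) : cl W u = cl W v ↔ u = v := by
  rw [cl_eq]
  constructor
  · rintro (h | ⟨h, -⟩)
    · exact h
    · exact absurd hu h
  · exact Or.inl

lemma cl_ne {u z : Word} (hz : z ∉ Subwords W) : cl W u ≠ cl W z ↔ u ∈ Subwords W := by
  constructor
  · intro h
    by_contra hu
    exact h (cl_eq_of_notMem hu hz)
  · intro h h1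
    rw [cl_eq_iff_of_mem h] at h1
    exact hz (h1 ▸ h)

lemma cl_ev {k : ℕ} (l : List (Fin k)) (w : Fin k → Word) :
    cl W (ev l w) = ev l (fun i => cl W (w i)) := ev_hom _ _ _

lemma exists_rep {k : ℕ} (b : Fin k → M W) : ∃ w : Fin k → Word, b = fun i => cl W (w i) := by
  choose w hw using fun i => cl_surj W (b i)
  exact ⟨w, funext fun i => (hw i).symm⟩

lemma one_mem_Sub (h : W.Nonempty) : (1 : Word) ∈ Subwords W := by
  obtain ⟨w, hw⟩ := h
  exact ⟨w, hw, w, 1, by simp⟩

lemma subset_Sub : W ⊆ Subwords W := fun w hw => ⟨w, hw, 1, 1, by simp⟩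

lemma Sub_mono {W W' : Set Word} (h : W ⊆ W') : Subwords W ⊆ Subwords W' := by
  rintro v ⟨w, hw, p, q, rfl⟩
  exact ⟨_, h hw, p, q, rfl⟩

lemma Sub_union (W W' : Set Word) : Subwords (W ∪ W') = Subwords W ∪ Subwords W' := by
  ext v
  constructor
  · rintro ⟨w, hw | hw, p, q, rfl⟩
    · exact Or.inl ⟨_, hw, p, q, rfl⟩
    · exact Or.inr ⟨_, hw, p, q, rfl⟩
  · rintro (h | h)
    · exact Sub_mono Set.subset_union_left h
    · exact Sub_mono Set.subset_union_right h

lemma exists_bound (hW : W.Finite) : ∃ L : ℕ, ∀ v ∈ Subwords W, v.length ≤ L := by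
  obtain ⟨L, hL⟩ := (hW.image (fun w : Word => w.length)).bddAbove
  refine ⟨L, ?_⟩
  rintro v ⟨w, hw, p, q, rfl⟩
  have := hL ⟨_, hw, rfl⟩
  simp only [FreeMonoid.length_mul] at this
  omega

lemma length_pow' (x : ℕ) (n : ℕ) : (FreeMonoid.of x ^ n).length = n := by
  induction n with
  | zero => simp
  | succ n ih => rw [pow_succ, FreeMonoid.length_mul, ih, FreeMonoid.length_of]

lemma exists_notMem (hW : W.Finite) : ∃ z : Word, z ∉ Subwords W := by
  obtain ⟨L, hL⟩ := exists_bound hW
  refine ⟨FreeMonoid.of 0 ^ (L + 1), fun h => ?_⟩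
  have := hL _ h
  rw [length_pow'] at this
  omega

lemma pow_notMem {z : Word} (hz : z ∉ Subwords W) {n : ℕ} (hn : n ≠ 0) : z ^ n ∉ Subwords W := by
  obtain ⟨n, rfl⟩ := Nat.exists_eq_succ_of_ne_zero hn
  intro h
  rw [pow_succ] at h
  exact hz (Sub_right h)

lemma finite_Sub (hW : W.Finite) : (Subwords W).Finite := by
  have : Subwords W ⊆ ⋃ w ∈ W, {v : Word | FreeMonoid.toList v ∈
      {l : List ℕ | l ∈ (FreeMonoid.toList w).sublists}} := by
    rintro v ⟨w, hw, p, q, rfl⟩
    refine Set.mem_biUnion hw ?_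
    simp only [Set.mem_ofPred_eq, List.mem_sublists, FreeMonoid.toList_mul]
    exact ((List.sublist_append_right _ _).trans (List.sublist_append_left _ _))
  refine Set.Finite.subset (hW.biUnion fun w _ => ?_) this
  apply Set.Finite.preimage (FreeMonoid.toList.injective.injOn)
  exact List.finite_toSet _

lemma finite_M (hW : W.Finite) : Finite (M W) := by
  obtain ⟨z, hz⟩ := exists_notMem hW
  have hf : ((cl W) '' (insert z (Subwords W))).Finite := ((finite_Sub hW).insert z).image _
  have : (cl W) '' (insert z (Subwords W)) = Set.univ := by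
    rw [Set.eq_univ_iff_forall]
    intro y
    obtain ⟨u, rfl⟩ := cl_surj W y
    by_cases hu : u ∈ Subwords W
    · exact ⟨u, Or.inr hu, rfl⟩
    · exact ⟨z, Or.inl rfl, cl_eq_of_notMem hz hu⟩
  rw [this] at hf
  exact Set.finite_univ_iff.mp hf

lemma occ_le_of_mem {m : ℕ} (hm : ∀ w ∈ W, ∀ x, occ x w ≤ m) {v : Word} (hv : v ∈ Subwords W) (x : ℕ) :
    occ x v ≤ m := by
  obtain ⟨w, hw, p, q, rfl⟩ := hv
  have := hm _ hw x
  simp only [occ_mul] at this
  omega

end M

end Pool.Agent.Lib.MP_09f634_al
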