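import Mathlib
import Pool.Agent.Lib.MP_09f634_al.Words

/-!
# Counts seen by `M(W)`
-/

set_option autoImplicit false

namespace Pool.Agent.Lib.MP_09f634_al

/-- `M(W)` sees counts: if the identity `l ≈ l'` holds in `M(W)` and the variable `x` occurs in `l`
and can be given a value different from `1` such that the value of `l` is not zero (that is, a
subword of `W`), then `x` occurs in `l` and in `l'` the same number of times. -/
def SeesCounts (W : Set Word) : Prop :=
  ∀ (k : ℕ) (l l' : List (Fin k)), (∀ b : Fin k → M W, ev l b = ev l' b) →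
    ∀ (w : Fin k → Word) (x : Fin k), x ∈ l → w x ≠ 1 → ev l w ∈ Subwords W →
      l.count x = l'.count x

lemma one_mem_of_mem {W : Set Word} {v : Word} (h : v ∈ Subwords W) : (1 : Word) ∈ Subwords W := by
  have : v = v * 1 := by simp
  rw [this] at h
  exact Sub_right h

lemma length_pow_word (p : Word) (n : ℕ) : (p ^ n).length = n * p.length := by
  induction n with
  | zero => simp
  | succ n ih => rw [pow_succ, FreeMonoid.length_mul, ih]; ring

lemma pow_word_inj {p : Word} (hp : p ≠ 1) {n n' : ℕ} (h : p ^ n = p ^ n') : n = n' := by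
  have := congrArg FreeMonoid.length h
  rw [length_pow_word, length_pow_word] at this
  exact Nat.eq_of_mul_eq_mul_right (length_pos' hp) this

/-- If every visible power is long enough, counts are seen. -/
theorem seesCounts_of_power {W : Set Word} {m : ℕ} (hm : ∀ w ∈ W, ∀ x, occ x w ≤ m)
    (hpow : ∀ v ∈ Subwords W, v ≠ 1 → ∃ (p : Word) (e : ℕ), p ≠ 1 ∧ p ^ e ∈ Subwords W ∧ m ≤ 2 * e + 2) :
    SeesCounts W := by
  intro k l l' hll w x hx hwx hv
  have h1S : (1 : Word) ∈ Subwords W := one_mem_of_mem hv
  -- the values agree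
  have hval : ∀ w : Fin k → Word, ev l w ∈ Subwords W → ev l w = ev l' w := by
    intro w hw
    have := hll (fun i => cl W (w i))
    rw [← cl_ev, ← cl_ev, cl_eq_iff_of_mem hw] at this
    exact this
  have hvx := hval w hv
  have hv1 : ev l w ≠ 1 := by
    intro h
    have h1 := card_le_length l w {x} (by simpa using ⟨hx, hwx⟩)
    rw [h] at h1
    simp at h1
  obtain ⟨p, e, hp, hpe, hme⟩ := hpow _ hv hv1
  -- small counts agree
  have hsmall : ∀ i, l.count i ≤ e → l.count i = l'.count i := by
    intro i hi
    have h1 : ev l (Pi.mulSingle i p) ∈ Subwords W := by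
      rw [ev_single]
      obtain ⟨d, rfl⟩ := Nat.exists_eq_add_of_le hi
      rw [pow_add] at hpe
      exact Sub_left hpe
    have h2 := hval _ h1
    rw [ev_single, ev_single] at h2
    exact pow_word_inj hp h2
  have hval' : ∀ w : Fin k → Word, ev l' w ∈ Subwords W → ev l w = ev l' w := by
    intro w hw
    have := hll (fun i => cl W (w i))
    rw [← cl_ev, ← cl_ev, eq_comm, cl_eq_iff_of_mem hw] at this
    exact this.symm
  have hsmall' : ∀ i, l'.count i ≤ e → l.count i = l'.count i := by
    intro i hi
    have h1 : ev l' (Pi.mulSingle i p) ∈ Subwords W := by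
      rw [ev_single]
      obtain ⟨d, rfl⟩ := Nat.exists_eq_add_of_le hi
      rw [pow_add] at hpe
      exact Sub_left hpe
    have h2 := hval' _ h1
    rw [ev_single, ev_single] at h2
    exact pow_word_inj hp h2
  by_contra hne
  obtain ⟨b, hb⟩ := exists_occ hwx
  -- another letter with different counts
  have hsum : ∑ i, l.count i * occ b (w i) = ∑ i, l'.count i * occ b (w i) := by
    rw [← occ_ev, ← occ_ev, hvx]
  have hy : ∃ y, y ≠ x ∧ 0 < occ b (w y) ∧ l.count y ≠ l'.count y := by
    by_contra hcon
    push Not at hcon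
    rw [← Finset.add_sum_erase _ _ (Finset.mem_univ x),
      ← Finset.add_sum_erase _ _ (Finset.mem_univ x)] at hsum
    have : ∑ i ∈ Finset.univ.erase x, l.count i * occ b (w i) =
        ∑ i ∈ Finset.univ.erase x, l'.count i * occ b (w i) := by
      apply Finset.sum_congr rfl
      intro i hi
      rcases Nat.eq_zero_or_pos (occ b (w i)) with h0 | h0
      · rw [h0]; simp
      · rw [hcon i (Finset.ne_of_mem_erase hi) h0]
    rw [this] at hsum
    have := Nat.add_right_cancel hsum
    exact hne (Nat.eq_of_mul_eq_mul_right hb this)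
  obtain ⟨y, hyx, hyb, hyne⟩ := hy
  have b1 : e + 1 ≤ l.count x := by
    by_contra h
    exact hne (hsmall x (by omega))
  have b2 : e + 1 ≤ l'.count x := by
    by_contra h
    exact hne (hsmall' x (by omega))
  have b3 : e + 1 ≤ l.count y := by
    by_contra h
    exact hyne (hsmall y (by omega))
  have b4 : e + 1 ≤ l'.count y := by
    by_contra h
    exact hyne (hsmall' y (by omega))
  have hle : occ b (ev l w) ≤ m := occ_le_of_mem hm hv b
  have two : ∀ l : List (Fin k), l.count x + l.count y ≤ occ b (ev l w) := by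
    intro l
    rw [occ_ev, ← Finset.add_sum_erase _ _ (Finset.mem_univ x)]
    have h1 : l.count y * occ b (w y) ≤
        ∑ i ∈ Finset.univ.erase x, l.count i * occ b (w i) :=
      Finset.single_le_sum (f := fun i => l.count i * occ b (w i)) (fun _ _ => Nat.zero_le _)
        (Finset.mem_erase.mpr ⟨hyx, Finset.mem_univ y⟩)
    have h2 : l.count x ≤ l.count x * occ b (w x) := Nat.le_mul_of_pos_right _ hb
    have h3 : l.count y ≤ l.count y * occ b (w y) := Nat.le_mul_of_pos_right _ hyb
    omega
  have t1 := two l
  have t2 := two l'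
  rw [← hvx] at t2
  omega

/-! ### Powers of one letter -/

lemma mem_Sub_pow {a m : ℕ} {v : Word} :
    v ∈ Subwords {FreeMonoid.of a ^ m} ↔ v = FreeMonoid.of a ^ v.length ∧ v.length ≤ m := by
  constructor
  · rintro ⟨w, hw, p, q, h⟩
    rw [Set.mem_singleton_iff] at hw
    subst hw
    have hlen := congrArg FreeMonoid.length h
    rw [length_pow', FreeMonoid.length_mul, FreeMonoid.length_mul] at hlen
    refine ⟨?_, by omega⟩
    have h2 : FreeMonoid.toList (FreeMonoid.of a ^ m) = List.replicate m a := by
      clear h hlen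
      induction m with
      | zero => rfl
      | succ n ih =>
        rw [pow_succ', FreeMonoid.toList_mul, ih, FreeMonoid.toList_of, List.replicate_succ]
        rfl
    have h3 : ∀ n, FreeMonoid.of a ^ n = FreeMonoid.ofList (List.replicate n a) := by
      intro n
      induction n with
      | zero => rfl
      | succ n ih =>
        rw [pow_succ', ih, List.replicate_succ]
        rfl
    rw [h3]
    apply FreeMonoid.toList.injective
    rw [FreeMonoid.toList_ofList]
    apply List.eq_replicate_of_mem
    intro b hb
    have h4 : b ∈ FreeMonoid.toList (p * v * q) := by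
      rw [FreeMonoid.toList_mul, FreeMonoid.toList_mul]
      simp [hb]
    rw [← h, h2] at h4
    exact List.eq_of_mem_replicate h4
  · rintro ⟨h1, h2⟩
    refine ⟨_, rfl, 1, FreeMonoid.of a ^ (m - v.length), ?_⟩
    rw [one_mul]
    nth_rw 1 [h1]
    rw [← pow_add]
    congr 1
    omega

lemma pow_mem_iff {a m n : ℕ} : FreeMonoid.of a ^ n ∈ Subwords {FreeMonoid.of a ^ m} ↔ n ≤ m := by
  rw [mem_Sub_pow, length_pow']
  simp

/-- value at a point all of whose relevant coordinates are powers of `a` -/
lemma ev_pow {k : ℕ} (a : ℕ) (l : List (Fin k)) (w : Fin k → Word)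
    (h : ∀ i ∈ l, w i = FreeMonoid.of a ^ (w i).length) :
    ev l w = FreeMonoid.of a ^ (ev l w).length := by
  induction l with
  | nil => simp
  | cons j l ih =>
    rw [ev_cons, FreeMonoid.length_mul, pow_add, ← h j (by simp),
      ← ih (fun i hi => h i (by simp [hi]))]

lemma factor_mem {k : ℕ} {W : Set Word} (l : List (Fin k)) (w : Fin k → Word) (h : ev l w ∈ Subwords W)
    (i : Fin k) (hi : i ∈ l) : w i ∈ Subwords W := by
  induction l with
  | nil => simp at hi
  | cons j l ih =>
    rw [ev_cons] at h
    rcases List.mem_cons.mp hi with rfl | hi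
    · exact Sub_left h
    · exact ih (Sub_right h) hi

lemma ev_eq_of_counts_aux {k : ℕ} {a m : ℕ} (l l' : List (Fin k)) (w : Fin k → Word)
    (h : ∀ i, w i ≠ 1 → min (l.count i) (m + 1) = min (l'.count i) (m + 1))
    (hl : ev l w ∈ Subwords {FreeMonoid.of a ^ m}) : ev l w = ev l' w := by
  have hc : ∀ i, w i ≠ 1 → l.count i = l'.count i := by
    intro i hi
    have h1 := h i hi
    have h2 : l.count i ≤ m := by
      have h3 := (mem_Sub_pow.mp hl).2
      rw [length_ev] at h3
      have h4 : l.count i * (w i).length ≤ ∑ i, l.count i * (w i).length :=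
        Finset.single_le_sum (f := fun i => l.count i * (w i).length) (fun _ _ => Nat.zero_le _)
          (Finset.mem_univ i)
      have h5 : l.count i ≤ l.count i * (w i).length := Nat.le_mul_of_pos_right _ (length_pos' hi)
      omega
    omega
  have hlen : (ev l w).length = (ev l' w).length := by
    rw [length_ev, length_ev]
    apply Finset.sum_congr rfl
    intro i _
    by_cases hi : w i = 1
    · rw [hi]; simp
    · rw [hc i hi]
  have hp : ∀ i, i ∈ l' → w i = FreeMonoid.of a ^ (w i).length := by
    intro i hi
    by_cases hw : w i = 1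
    · rw [hw]; simp
    · have h1 : 0 < l'.count i := List.count_pos_iff.mpr hi
      rw [← hc i hw] at h1
      exact (mem_Sub_pow.mp (factor_mem l w hl i (List.count_pos_iff.mp h1))).1
  rw [(mem_Sub_pow.mp hl).1, hlen, ← ev_pow a l' w hp]

/-- In `M(a^m)` the value only depends on the truncated counts. -/
lemma cl_ev_eq_of_counts {k : ℕ} {a m : ℕ} (l l' : List (Fin k)) (w : Fin k → Word)
    (h : ∀ i, w i ≠ 1 → min (l.count i) (m + 1) = min (l'.count i) (m + 1)) :
    cl {FreeMonoid.of a ^ m} (ev l w) = cl {FreeMonoid.of a ^ m} (ev l' w) := by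
  by_cases h1 : ev l w ∈ Subwords {FreeMonoid.of a ^ m}
  · rw [ev_eq_of_counts_aux l l' w h h1]
  · by_cases h2 : ev l' w ∈ Subwords {FreeMonoid.of a ^ m}
    · rw [ev_eq_of_counts_aux l' l w (fun i hi => (h i hi).symm) h2]
    · exact cl_eq_of_notMem h1 h2

end Pool.Agent.Lib.MP_09f634_al
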