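import Mathlib
import Pool.Agent.Lib.MP_09f634_al.Counts

/-!
# Local terms on sets of points
-/

set_option autoImplicit false

namespace Pool.Agent.Lib.MP_09f634_al

open Classical in
lemma card_supported {S : Type} [Monoid S] [Fintype S] {k : ℕ} (Z : Finset (Fin k)) :
    (Finset.univ.filter (fun b : Fin k → S => ∀ i, i ∉ Z → b i = 1)).card ≤
      (Fintype.card S) ^ Z.card := by
  have h1 : (Fintype.card S) ^ Z.card = (Finset.univ : Finset (Z → S)).card := by
    rw [Finset.card_univ, Fintype.card_fun, Fintype.card_coe]
  rw [h1]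
  apply Finset.card_le_card_of_injOn (fun b => fun i : Z => b i)
  · intro b _
    simp
  · intro b hb b' hb' h
    simp only [Finset.coe_filter, Finset.mem_univ, true_and, Set.mem_ofPred_eq] at hb hb'
    funext i
    by_cases hi : i ∈ Z
    · exact congrFun h ⟨i, hi⟩
    · rw [hb i hi, hb' i hi]

/-- Local interpolation at word points and at all points supported in `Z`. -/
lemma local_words {W : Set Word} [Finite (M W)] {k r : ℕ} {f : (Fin k → M W) → M W}
    (h : LocalTerm r f) (P : Finset (Fin k → Word)) (Z : Finset (Fin k))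
    (hr : P.card + Nat.card (M W) ^ Z.card ≤ r) :
    ∃ l : List (Fin k), l ≠ [] ∧ (∀ w ∈ P, f (fun i => cl W (w i)) = cl W (ev l w)) ∧
      ∀ w : Fin k → Word, (∀ i, i ∉ Z → w i = 1) → f (fun i => cl W (w i)) = cl W (ev l w) := by
  classical
  have := Fintype.ofFinite (M W)
  obtain ⟨l, hl, hval⟩ := h.finset
    (P.image (fun w i => cl W (w i)) ∪
      Finset.univ.filter (fun b : Fin k → M W => ∀ i, i ∉ Z → b i = 1)) (by
      refine (Finset.card_union_le _ _).trans (le_trans ?_ hr)
      apply Nat.add_le_add Finset.card_image_le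
      rw [Nat.card_eq_fintype_card]
      convert card_supported (S := M W) Z)
  refine ⟨l, hl, ?_, ?_⟩
  · intro w hw
    rw [cl_ev]
    exact hval _ (Finset.mem_union_left _ (Finset.mem_image_of_mem _ hw))
  · intro w hw
    rw [cl_ev]
    apply hval
    apply Finset.mem_union_right
    simp only [Finset.mem_filter, Finset.mem_univ, true_and]
    intro i hi
    rw [hw i hi, map_one]

/-- Local interpolation at word points. -/
lemma local_words' {W : Set Word} [Finite (M W)] {k r : ℕ} {f : (Fin k → M W) → M W}
    (h : LocalTerm r f) (P : Finset (Fin k → Word)) (hr : P.card + 1 ≤ r) :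
    ∃ l : List (Fin k), l ≠ [] ∧ ∀ w ∈ P, f (fun i => cl W (w i)) = cl W (ev l w) := by
  obtain ⟨l, h1, h2, -⟩ := local_words h P ∅ (by simpa using hr)
  exact ⟨l, h1, h2⟩

/-- restriction of a point to a set of letters -/
def res {S : Type} [One S] {k : ℕ} (K : Finset (Fin k)) (w : Fin k → S) : Fin k → S :=
  fun i => if i ∈ K then w i else 1

lemma res_apply_mem {S : Type} [One S] {k : ℕ} {K : Finset (Fin k)} {w : Fin k → S} {i : Fin k}
    (h : i ∈ K) : res K w i = w i := by simp [res, h]

lemma res_apply_notMem {S : Type} [One S] {k : ℕ} {K : Finset (Fin k)} {w : Fin k → S} {i : Fin k}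
    (h : i ∉ K) : res K w i = 1 := by simp [res, h]

lemma res_res {S : Type} [One S] {k : ℕ} (K : Finset (Fin k)) (w : Fin k → S) :
    res K (res K w) = res K w := by
  funext i
  by_cases h : i ∈ K <;> simp [res, h]

lemma ev_filter_res {S : Type} [Monoid S] {k : ℕ} (K : Finset (Fin k)) (l : List (Fin k))
    (w : Fin k → S) : ev (l.filter (fun i => decide (i ∈ K))) w = ev l (res K w) :=
  ev_filter l (fun i => i ∈ K) w

section F

variable {W : Set Word} {k : ℕ} (f : (Fin k → M W) → M W)

/-- the operation at the level of words -/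
def onW (w : Fin k → Word) : M W := f (fun i => cl W (w i))

/-- The letter `i` occurs in the (local) terms of `f`. -/
def Occurs (z : Word) (i : Fin k) : Prop := onW f (Pi.mulSingle i z) = cl W z

variable {f}

lemma mem_iff_occurs {z : Word} (hz : z ∉ Subwords W) (h1 : (1 : Word) ∈ Subwords W) {i : Fin k}
    {l : List (Fin k)} (hl : onW f (Pi.mulSingle i z) = cl W (ev l (Pi.mulSingle i z))) :
    i ∈ l ↔ Occurs f z i := by
  unfold Occurs
  rw [hl, ev_single]
  constructor
  · intro hi
    have : l.count i ≠ 0 := by
      have := List.count_pos_iff.mpr hi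
      omega
    exact cl_eq_of_notMem (pow_notMem hz this) hz
  · intro h
    by_contra hi
    rw [List.count_eq_zero_of_not_mem hi, pow_zero, cl_eq_iff_of_mem h1] at h
    exact hz (h ▸ h1)

lemma onW_update [Finite (M W)] {r : ℕ} (h : LocalTerm r f) (hr : 4 ≤ r) {z : Word}
    (hz : z ∉ Subwords W) (h1 : (1 : Word) ∈ Subwords W) {i : Fin k} (hi : ¬ Occurs f z i)
    (w : Fin k → Word) : onW f w = onW f (Function.update w i 1) := by
  classical
  obtain ⟨l, -, hl⟩ := local_words' h {w, Function.update w i 1, Pi.mulSingle i z} (by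
    have := Finset.card_le_three (a := w) (b := Function.update w i 1) (c := Pi.mulSingle i z)
    omega)
  have hil : i ∉ l := fun h' => hi ((mem_iff_occurs hz h1 (hl _ (by simp))).mp h')
  have e1 : onW f w = cl W (ev l w) := hl _ (by simp)
  have e2 : onW f (Function.update w i 1) = cl W (ev l (Function.update w i 1)) := hl _ (by simp)
  rw [e1, e2]
  congr 1
  apply ev_congr
  intro j hj
  rw [Function.update_of_ne]
  rintro rfl
  exact hil hj

lemma onW_res [Finite (M W)] {r : ℕ} (h : LocalTerm r f) (hr : 4 ≤ r) {z : Word}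
    (hz : z ∉ Subwords W) (h1 : (1 : Word) ∈ Subwords W) (K : Finset (Fin k))
    (hK : ∀ i, Occurs f z i → i ∈ K) (w : Fin k → Word) : onW f w = onW f (res K w) := by
  classical
  have key : ∀ T : Finset (Fin k), (∀ i ∈ T, i ∉ K) →
      onW f w = onW f (fun i => if i ∈ T then 1 else w i) := by
    intro T
    induction T using Finset.induction_on with
    | empty => intro _; simp
    | insert j T hj ih =>
      intro hT
      rw [ih (fun i hi => hT i (Finset.mem_insert_of_mem hi)),
        onW_update h hr hz h1 (i := j) (fun hocc => hT j (Finset.mem_insert_self _ _) (hK j hocc))]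
      congr 1
      funext i
      by_cases hij : i = j
      · subst hij; simp
      · rw [Function.update_of_ne hij]
        simp [hij]
  rw [key Kᶜ (fun i hi => by simpa using hi)]
  congr 1
  funext i
  by_cases hi : i ∈ K <;> simp [res, hi]

end F

end Pool.Agent.Lib.MP_09f634_al
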