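import Mathlib
import Pool.Agent.Lib.MP_09f634_al.Points

/-!
# From `M(W)` to `M(W ∪ {a^m})`
-/

set_option autoImplicit false

namespace Pool.Agent.Lib.MP_09f634_al

/-- The local form of finite relatedness. -/
def LocallyDetermined (S : Type) [Semigroup S] : Prop :=
  ∃ r : ℕ, ∀ (k : ℕ) (f : (Fin k → S) → S), 0 < k → LocalTerm r f → IsTermOp f

lemma cl_union_eq {W C : Set Word} {u v : Word} :
    cl (W ∪ C) u = cl (W ∪ C) v ↔ cl W u = cl W v ∧ cl C u = cl C v := by
  rw [cl_eq, cl_eq, cl_eq, Sub_union]
  simp only [Set.mem_union, not_or]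
  tauto

/-- list with prescribed counts on `s` -/
def flat {k : ℕ} (s : List (Fin k)) (c : Fin k → ℕ) : List (Fin k) :=
  s.flatMap (fun i => List.replicate (c i) i)

lemma mem_flat {k : ℕ} (s : List (Fin k)) (c : Fin k → ℕ) (j : Fin k) :
    j ∈ flat s c → j ∈ s := by
  unfold flat
  rw [List.mem_flatMap]
  rintro ⟨i, hi, hj⟩
  rw [List.mem_replicate] at hj
  rw [hj.2]; exact hi

lemma count_flat {k : ℕ} (s : List (Fin k)) (hs : s.Nodup) (c : Fin k → ℕ) (j : Fin k) :
    (flat s c).count j = if j ∈ s then c j else 0 := by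
  induction s with
  | nil => simp [flat]
  | cons i s ih =>
    rw [List.nodup_cons] at hs
    have h1 : flat (i :: s) c = List.replicate (c i) i ++ flat s c := by simp [flat]
    rw [h1, List.count_append, ih hs.2, List.count_replicate]
    by_cases hij : i = j
    · subst hij
      simp [hs.1]
    · simp [hij, Ne.symm hij]

lemma ev_flat_factor {k : ℕ} {W : Set Word} (s : List (Fin k)) (c : Fin k → ℕ) (w : Fin k → Word)
    (h : ev (flat s c) w ∈ Subwords W) (i : Fin k) (hi : i ∈ s) : w i ^ c i ∈ Subwords W := by
  induction s with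
  | nil => simp at hi
  | cons j s ih =>
    have h1 : flat (j :: s) c = List.replicate (c j) j ++ flat s c := by simp [flat]
    rw [h1, ev_append] at h
    rcases List.mem_cons.mp hi with rfl | hi
    · have := Sub_left h
      unfold ev at this
      rw [List.map_replicate, List.prod_replicate] at this
      exact this
    · exact ih (Sub_right h) hi

lemma cl_pow_eq {a m n n' : ℕ}
    (h : cl {FreeMonoid.of a ^ m} (FreeMonoid.of a ^ n) = cl {FreeMonoid.of a ^ m}
      (FreeMonoid.of a ^ n')) : min n (m + 1) = min n' (m + 1) := by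
  rw [cl_eq] at h
  rcases h with h | ⟨h1, h2⟩
  · have := congrArg FreeMonoid.length h
    rw [length_pow', length_pow'] at this
    rw [this]
  · rw [pow_mem_iff] at h1 h2
    omega

lemma occ_pow (x : ℕ) (v : Word) (n : ℕ) : occ x (v ^ n) = n * occ x v := by
  induction n with
  | zero => simp
  | succ n ih => rw [pow_succ, occ_mul, ih]; ring

open Classical in
theorem up {W : Set Word} {a m : ℕ} (hW : W.Finite) (hne : W.Nonempty)
    (hm : ∀ w ∈ W, ∀ x, occ x w ≤ m) (hsees : SeesCounts W)
    (h : LocallyDetermined (M W)) : LocallyDetermined (M (W ∪ {FreeMonoid.of a ^ m})) := by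
  obtain ⟨r0, hr0⟩ := h
  have h1W : (1 : Word) ∈ Subwords W := one_mem_Sub hne
  set C : Set Word := {FreeMonoid.of a ^ m} with hC
  have hW' : (W ∪ C).Finite := hW.union (Set.finite_singleton _)
  have hfinW : Finite (M W) := finite_M hW
  have hfin : Finite (M (W ∪ C)) := finite_M hW'
  obtain ⟨L, hL⟩ := exists_bound hW
  obtain ⟨z, hz'⟩ := exists_notMem hW'
  have hz : z ∉ Subwords W := fun h => hz' (Sub_mono Set.subset_union_left h)
  have h1W' : (1 : Word) ∈ Subwords (W ∪ C) := Sub_mono Set.subset_union_left h1W
  set N := Nat.card (M (W ∪ C)) with hN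
  have hNpos : 0 < N := Nat.card_pos
  refine ⟨r0 + N ^ L + m + 10, fun k f' hk hloc => ?_⟩
  set r := r0 + N ^ L + m + 10 with hr
  -- words representing elements
  choose rep hrep using cl_surj W
  choose rep' hrep' using cl_surj (W ∪ C)
  let F : (Fin k → Word) → M (W ∪ C) := onW f'
  let g : (Fin k → Word) → Word := fun w => rep' (F w)
  have hg : ∀ w, cl (W ∪ C) (g w) = F w := fun w => hrep' _
  have hgW : ∀ w u, F w = cl (W ∪ C) u → cl W (g w) = cl W u := by
    intro w u hu
    rw [← hg] at hu
    exact (cl_union_eq.mp hu).1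
  have hgC : ∀ w u, F w = cl (W ∪ C) u → cl C (g w) = cl C u := by
    intro w u hu
    rw [← hg] at hu
    exact (cl_union_eq.mp hu).2
  have hLoc : ∀ P : Finset (Fin k → Word), P.card ≤ r0 + m + 9 →
      ∃ l : List (Fin k), l ≠ [] ∧ ∀ w ∈ P, F w = cl (W ∪ C) (ev l w) := by
    intro P hP
    exact local_words' hloc P (by
      have : 0 < N ^ L := Nat.pow_pos hNpos
      omega)
  -- the operation on `M W`
  let f : (Fin k → M W) → M W := fun b => cl W (g (fun i => rep (b i)))
  have hA : ∀ w, cl W (g w) = f (fun i => cl W (w i)) := by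
    intro w
    obtain ⟨l, -, hl⟩ := hLoc {w, fun i => rep (cl W (w i))} (by
      have := Finset.card_le_two (a := w) (b := fun i => rep (cl W (w i)))
      omega)
    have e1 := hgW _ _ (hl w (by simp))
    have e2 := hgW _ _ (hl (fun i => rep (cl W (w i))) (by simp))
    show cl W (g w) = cl W (g (fun i => rep (cl W (w i))))
    rw [e1, e2, cl_ev, cl_ev]
    congr 1
    funext i
    exact (hrep _).symm
  have hB : LocalTerm r0 f := by
    intro P
    obtain ⟨l, hl0, hl⟩ := hLoc (Finset.univ.image (fun j : Fin r0 => fun i => rep (P j i))) (by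
      have : (Finset.univ.image (fun j : Fin r0 => fun i => rep (P j i))).card ≤ r0 := by
        refine Finset.card_image_le.trans ?_
        simp
      omega)
    obtain ⟨t, ht⟩ := exists_freeSemigroup (S := M W) l hl0
    refine ⟨t, fun j => ?_⟩
    rw [ht]
    have e1 := hgW _ _ (hl (fun i => rep (P j i)) (Finset.mem_image_of_mem _ (Finset.mem_univ j)))
    show cl W (g (fun i => rep (P j i))) = _
    rw [e1, cl_ev]
    unfold ev
    congr 2
    funext i
    exact hrep _
  obtain ⟨t0, ht0⟩ := hr0 k f hk hB
  obtain ⟨l0, hl0ne, hl0⟩ : ∃ l0 : List (Fin k), l0 ≠ [] ∧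
      ∀ w, cl W (g w) = cl W (ev l0 w) := by
    refine ⟨t0.head :: t0.tail, by simp, fun w => ?_⟩
    rw [hA, ht0, lift_eq_prod, cl_ev]
    rfl
  -- counts
  have hcex : ∀ i : Fin k, ∃ l : List (Fin k), l ≠ [] ∧
      ∀ w ∈ ({Pi.mulSingle i (FreeMonoid.of a)} : Finset (Fin k → Word)),
        F w = cl (W ∪ C) (ev l w) := fun i => hLoc _ (by simp)
  choose lc _ hlc using hcex
  let c : Fin k → ℕ := fun i => min ((lc i).count i) (m + 1)
  have hc : ∀ i l, F (Pi.mulSingle i (FreeMonoid.of a)) =
      cl (W ∪ C) (ev l (Pi.mulSingle i (FreeMonoid.of a))) → min (l.count i) (m + 1) = c i := by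
    intro i l hl
    have e1 := hgC _ _ hl
    have e2 := hgC _ _ (hlc i _ (Finset.mem_singleton_self _))
    rw [e1, ev_single, ev_single] at e2
    exact cl_pow_eq e2
  have hcle : ∀ i, c i ≤ m + 1 := fun i => min_le_right _ _
  -- letters of l0 occur
  have hocc_iff : ∀ i (l : List (Fin k)), F (Pi.mulSingle i z) =
      cl (W ∪ C) (ev l (Pi.mulSingle i z)) → (i ∈ l ↔ i ∈ l0) := by
    intro i l hl
    have e1 := hgW _ _ hl
    rw [hl0, ev_single, ev_single] at e1
    constructor
    · intro hi
      by_contra hi0
      rw [List.count_eq_zero_of_not_mem hi0, pow_zero, cl_eq_iff_of_mem h1W] at e1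
      have : l.count i ≠ 0 := by
        have := List.count_pos_iff.mpr hi
        omega
      exact pow_notMem hz this (e1 ▸ h1W)
    · intro hi0
      by_contra hi
      rw [List.count_eq_zero_of_not_mem hi, pow_zero, eq_comm, cl_eq_iff_of_mem h1W] at e1
      have : l0.count i ≠ 0 := by
        have := List.count_pos_iff.mpr hi0
        omega
      exact pow_notMem hz this (e1 ▸ h1W)
  let K : Finset (Fin k) := l0.toFinset
  have hKmem : ∀ i, i ∈ K ↔ i ∈ l0 := fun i => List.mem_toFinset
  have hOcc : ∀ i, Occurs f' z i → i ∈ K := by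
    intro i hi
    obtain ⟨l, -, hl⟩ := hLoc {Pi.mulSingle i z} (by simp)
    have e := hl _ (Finset.mem_singleton_self _)
    rw [hKmem, ← hocc_iff i l e]
    exact (mem_iff_occurs hz' h1W' e).mpr hi
  have hc1 : ∀ i ∈ K, 1 ≤ c i := by
    intro i hi
    obtain ⟨l, -, hl⟩ := hLoc {Pi.mulSingle i z, Pi.mulSingle i (FreeMonoid.of a)} (by
      have := Finset.card_le_two (a := (Pi.mulSingle i z : Fin k → Word))
        (b := Pi.mulSingle i (FreeMonoid.of a))
      omega)
    have e1 := (hocc_iff i l (hl _ (by simp))).mpr ((hKmem i).mp hi)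
    have e2 := hc i l (hl _ (by simp))
    have := List.count_pos_iff.mpr e1
    omega
  -- visible letters
  let Vis : Fin k → Prop := fun i => ∃ w : Fin k → Word, w i ≠ 1 ∧ ev l0 w ∈ Subwords W
  have hVis : ∀ i ∈ K, Vis i → l0.count i = c i := by
    rintro i hi ⟨w, hwi, hwS⟩
    have hi0 := (hKmem i).mp hi
    let Z : Finset (Fin k) := Finset.univ.filter (fun j => j ∈ l0 ∧ w j ≠ 1)
    have hZmem : ∀ j, j ∈ Z ↔ j ∈ l0 ∧ w j ≠ 1 := fun j => by simp [Z]
    have hZc : Z.card ≤ L :=
      (card_le_length l0 w Z (fun j hj => (hZmem j).mp hj)).trans (hL _ hwS)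
    have hiZ : i ∈ Z := (hZmem i).mpr ⟨hi0, hwi⟩
    obtain ⟨l, -, hlP, hlZ⟩ := local_words (r := r) hloc
      {Pi.mulSingle i (FreeMonoid.of a)} Z (by
        have h2 : N ^ Z.card ≤ N ^ L := Nat.pow_le_pow_right hNpos hZc
        rw [Finset.card_singleton, ← hN]
        omega)
    have hres : ∀ v : Fin k → Word, cl W (ev l0 (res Z v)) = cl W (ev l (res Z v)) := by
      intro v
      rw [← hl0]
      apply hgW
      exact hlZ _ (fun j hj => res_apply_notMem hj)
    have key := hsees k (l0.filter (fun j => decide (j ∈ Z))) (l.filter (fun j => decide (j ∈ Z)))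
      (by
        intro b
        rw [ev_filter_res, ev_filter_res]
        obtain ⟨v, rfl⟩ := exists_rep b
        have e : res Z (fun i => cl W (v i)) = fun i => cl W (res Z v i) := by
          funext j
          by_cases hj : j ∈ Z <;> simp [res, hj]
        rw [e, ← cl_ev, ← cl_ev]
        exact hres v)
      w i (by simp [hi0, hiZ]) hwi
      (by
        rw [ev_filter_res]
        have : ev l0 (res Z w) = ev l0 w := by
          apply ev_congr
          intro j hj
          by_cases hjZ : j ∈ Z
          · exact res_apply_mem hjZ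
          · rw [res_apply_notMem hjZ]
            by_contra hne
            exact hjZ ((hZmem j).mpr ⟨hj, fun h => hne h.symm⟩)
        rw [this]
        exact hwS)
    rw [List.count_filter (by simpa using hiZ), List.count_filter (by simpa using hiZ)] at key
    have e2 := hc i l (hlP _ (Finset.mem_singleton_self _))
    obtain ⟨x, hx⟩ := exists_occ hwi
    have e3 := occ_le_ev x l0 w i
    have e4 := occ_le_of_mem hm hwS x
    have e5 : l0.count i ≤ l0.count i * occ x (w i) := Nat.le_mul_of_pos_right _ hx
    omega
  let inv : Finset (Fin k) := K.filter (fun i => ¬ Vis i)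
  have hinv : ∀ i, i ∈ inv ↔ i ∈ K ∧ ¬ Vis i := fun i => by simp [inv]
  let ls : List (Fin k) := l0.filter (fun i => decide (i ∉ inv)) ++ flat inv.toList c
  have hcount : ∀ i ∈ K, ls.count i = c i := by
    intro i hi
    show (l0.filter (fun i => decide (i ∉ inv)) ++ flat inv.toList c).count i = c i
    rw [List.count_append, count_flat _ (Finset.nodup_toList _)]
    by_cases hv : Vis i
    · have h1 : i ∉ inv := fun h => ((hinv i).mp h).2 hv
      rw [List.count_filter (by simpa using h1)]
      simp [h1, hVis i hi hv]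
    · have h1 : i ∈ inv := (hinv i).mpr ⟨hi, hv⟩
      have h2 : (l0.filter (fun i => decide (i ∉ inv))).count i = 0 := by
        apply List.count_eq_zero_of_not_mem
        simp [h1]
      rw [h2]
      simp [h1]
  have hlsK : ∀ i ∈ ls, i ∈ K := by
    intro i hi
    rw [List.mem_append] at hi
    rcases hi with hi | hi
    · rw [hKmem]
      exact List.mem_of_mem_filter hi
    · have := mem_flat _ _ _ hi
      rw [Finset.mem_toList, hinv] at this
      exact this.1
  have hlsmem : ∀ i ∈ K, i ∈ ls := by
    intro i hi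
    apply List.count_pos_iff.mp
    rw [hcount i hi]
    exact hc1 i hi
  -- first component
  have hp : ∀ w, cl W (ev l0 w) = cl W (ev ls w) := by
    intro w
    have hls : ev ls w = ev l0 (fun i => if i ∉ inv then w i else 1) *
        ev (flat inv.toList c) w := by
      show ev (l0.filter (fun i => decide (i ∉ inv)) ++ flat inv.toList c) w = _
      rw [ev_append, ev_filter l0 (fun i => i ∉ inv)]
    by_cases hall : ∀ i ∈ inv, w i = 1
    · have e1 : ev (flat inv.toList c) w = 1 := by
        rw [ev_congr _ w 1, ev_one]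
        intro i hi
        have := mem_flat _ _ _ hi
        rw [Finset.mem_toList] at this
        rw [hall i this]; rfl
      have e2 : ev l0 (fun i => if i ∉ inv then w i else 1) = ev l0 w := by
        apply ev_congr
        intro i _
        by_cases hi : i ∈ inv
        · simp [hi, hall i hi]
        · simp [hi]
      rw [hls, e1, e2, mul_one]
    · push Not at hall
      obtain ⟨i, hi, hwi⟩ := hall
      obtain ⟨hiK, hiV⟩ := (hinv i).mp hi
      apply cl_eq_of_notMem
      · intro hmem
        exact hiV ⟨w, hwi, hmem⟩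
      · intro hmem
        rw [hls] at hmem
        have hpw : w i ^ c i ∈ Subwords W :=
          ev_flat_factor _ _ _ (Sub_right hmem) i (by simpa using hi)
        obtain ⟨x, hx⟩ := exists_occ hwi
        have hcm : c i ≤ m := by
          have e1 := occ_le_of_mem hm hpw x
          rw [occ_pow] at e1
          have : c i ≤ c i * occ x (w i) := Nat.le_mul_of_pos_right _ hx
          omega
        obtain ⟨l, -, hl⟩ := hLoc {Pi.mulSingle i (FreeMonoid.of a), Pi.mulSingle i (w i)} (by
          have := Finset.card_le_two (a := (Pi.mulSingle i (FreeMonoid.of a) : Fin k → Word))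
            (b := Pi.mulSingle i (w i))
          omega)
        have e1 := hc i l (hl _ (by simp))
        have e2 : l.count i = c i := by omega
        have e3 := hgW _ _ (hl (Pi.mulSingle i (w i)) (by simp))
        rw [hl0, ev_single l, e2, eq_comm, cl_eq_iff_of_mem hpw] at e3
        apply hiV
        refine ⟨Pi.mulSingle i (w i), by simpa using hwi, ?_⟩
        rw [← e3]
        exact hpw
  -- second component
  have hq : ∀ w, cl C (g w) = cl C (ev ls w) := by
    intro w
    have hFres : F w = F (res K w) := onW_res hloc (by omega) hz' h1W' K hOcc w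
    have hlsres : ev ls (res K w) = ev ls w :=
      ev_congr _ _ _ (fun i hi => res_apply_mem (hlsK i hi))
    let Q : Finset (Fin k) := K.filter (fun i => w i ≠ 1)
    have hQ : ∀ i, i ∈ Q ↔ i ∈ K ∧ w i ≠ 1 := fun i => by simp [Q]
    rcases le_or_gt Q.card m with hQm | hQm
    · obtain ⟨l, -, hl⟩ := hLoc (insert (res K w)
        (Q.image (fun i => (Pi.mulSingle i (FreeMonoid.of a) : Fin k → Word)))) (by
          have h1 := Finset.card_insert_le (res K w)
            (Q.image (fun i => (Pi.mulSingle i (FreeMonoid.of a) : Fin k → Word)))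
          have h2 : (Q.image (fun i => (Pi.mulSingle i (FreeMonoid.of a) : Fin k → Word))).card ≤
            Q.card := Finset.card_image_le
          omega)
      have e1 : F w = cl (W ∪ C) (ev l (res K w)) := by
        rw [hFres]
        exact hl _ (Finset.mem_insert_self _ _)
      rw [hgC _ _ e1, ← hlsres]
      apply cl_ev_eq_of_counts
      intro i hi
      have hiK : i ∈ K := by
        by_contra h
        exact hi (res_apply_notMem h)
      rw [res_apply_mem hiK] at hi
      have hiQ : i ∈ Q := (hQ i).mpr ⟨hiK, hi⟩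
      have e2 := hc i l (hl _ (Finset.mem_insert_of_mem (Finset.mem_image_of_mem _ hiQ)))
      have e3 := hcount i hiK
      have e4 := hcle i
      omega
    · obtain ⟨Q', hQ'Q, hQ'c⟩ := Finset.exists_subset_card_eq (Nat.succ_le_of_lt hQm)
      obtain ⟨l, -, hl⟩ := hLoc (insert (res K w)
        (Q'.image (fun i => (Pi.mulSingle i (FreeMonoid.of a) : Fin k → Word)))) (by
          have h1 := Finset.card_insert_le (res K w)
            (Q'.image (fun i => (Pi.mulSingle i (FreeMonoid.of a) : Fin k → Word)))
          have h2 : (Q'.image (fun i => (Pi.mulSingle i (FreeMonoid.of a) : Fin k → Word))).card ≤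
            Q'.card := Finset.card_image_le
          have h3 : m.succ = m + 1 := rfl
          omega)
      have e1 : F w = cl (W ∪ C) (ev l (res K w)) := by
        rw [hFres]
        exact hl _ (Finset.mem_insert_self _ _)
      rw [hgC _ _ e1]
      apply cl_eq_of_notMem
      · intro hmem
        have h5 := (mem_Sub_pow.mp hmem).2
        have h6 := card_le_length l (res K w) Q' (by
          intro i hi
          obtain ⟨hiK, hi1⟩ := (hQ i).mp (hQ'Q hi)
          refine ⟨?_, by rwa [res_apply_mem hiK]⟩
          have e2 := hc i l (hl _ (Finset.mem_insert_of_mem (Finset.mem_image_of_mem _ hi)))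
          have e3 := hc1 i hiK
          apply List.count_pos_iff.mp
          omega)
        have h3 : m.succ = m + 1 := rfl
        omega
      · intro hmem
        have h5 := (mem_Sub_pow.mp hmem).2
        have h6 := card_le_length ls w Q' (by
          intro i hi
          obtain ⟨hiK, hi1⟩ := (hQ i).mp (hQ'Q hi)
          exact ⟨hlsmem i hiK, hi1⟩)
        have h3 : m.succ = m + 1 := rfl
        omega
  -- conclusion
  have hlsne : ls ≠ [] := by
    obtain ⟨i, l', hil⟩ := List.exists_cons_of_ne_nil hl0ne
    have : i ∈ ls := hlsmem i ((hKmem i).mpr (by rw [hil]; simp))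
    exact List.ne_nil_of_mem this
  apply isTermOp_of_list f' ls hlsne
  intro b
  obtain ⟨w, rfl⟩ := exists_rep b
  show F w = ev ls (fun i => cl (W ∪ C) (w i))
  rw [← cl_ev, ← hg]
  rw [cl_union_eq]
  exact ⟨(hl0 w).trans (hp w), hq w⟩

end Pool.Agent.Lib.MP_09f634_al
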