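import Mathlib
import Pool.Agent.Lib.MP_09f634_al.Up

/-!
# From `M(W ∪ {a^m})` to `M(W)`
-/

set_option autoImplicit false

namespace Pool.Agent.Lib.MP_09f634_al

lemma pow_notMem_of_occ {W : Set Word} {m : ℕ} (hm : ∀ w ∈ W, ∀ x, occ x w ≤ m) {v : Word}
    (hv : v ≠ 1) {n : ℕ} (hn : m < n) : v ^ n ∉ Subwords W := by
  intro h
  obtain ⟨x, hx⟩ := exists_occ hv
  have h1 := occ_le_of_mem hm h x
  rw [occ_pow] at h1
  have : n ≤ n * occ x v := Nat.le_mul_of_pos_right _ hx
  omega

lemma LocalTerm.of_succ {S : Type} [Monoid S] {k r : ℕ} {f : (Fin k → S) → S}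
    (h : LocalTerm (r + 1) f) : LocalTerm r f := by
  intro P
  obtain ⟨t, ht⟩ := h (fun j => if hj : (j : ℕ) < r then P ⟨j, hj⟩ else 1)
  refine ⟨t, fun j => ?_⟩
  have := ht ⟨j, by omega⟩
  simpa using this

open Classical in
theorem down {W : Set Word} {a m : ℕ} (hW : W.Finite) (hne : W.Nonempty)
    (hm : ∀ w ∈ W, ∀ x, occ x w ≤ m) (hsees : SeesCounts W)
    (h : LocallyDetermined (M (W ∪ {FreeMonoid.of a ^ m}))) : LocallyDetermined (M W) := by
  obtain ⟨r', hr0, hr'⟩ : ∃ r' : ℕ, 1 ≤ r' ∧ ∀ (k : ℕ)
      (f : (Fin k → M (W ∪ {FreeMonoid.of a ^ m})) → M (W ∪ {FreeMonoid.of a ^ m})), 0 < k →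
      LocalTerm r' f → IsTermOp f := by
    obtain ⟨r, hr⟩ := h
    exact ⟨r + 1, by omega, fun k f hk hf => hr k f hk hf.of_succ⟩
  have h1W : (1 : Word) ∈ Subwords W := one_mem_Sub hne
  set C : Set Word := {FreeMonoid.of a ^ m} with hC
  have hfin : Finite (M W) := finite_M hW
  obtain ⟨L, hL⟩ := exists_bound hW
  obtain ⟨z, hz⟩ := exists_notMem hW
  set N := Nat.card (M W) with hN
  have hNpos : 0 < N := Nat.card_pos
  set L' := max L m with hL'
  have hLL' : L ≤ L' := le_max_left _ _
  have hmL' : m ≤ L' := le_max_right _ _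
  set B := (r' * (L' + 1) + 1) * (L + 1) with hB
  refine ⟨N ^ B + L + 10, fun k f hk hloc => ?_⟩
  set r := N ^ B + L + 10 with hr
  let F : (Fin k → Word) → M W := onW f
  have hLoc : ∀ P : Finset (Fin k → Word), P.card ≤ L + 9 →
      ∃ l : List (Fin k), l ≠ [] ∧ ∀ w ∈ P, F w = cl W (ev l w) := by
    intro P hP
    exact local_words' hloc P (by
      have : 0 < N ^ B := Nat.pow_pos hNpos
      omega)
  have hLocZ : ∀ Z : Finset (Fin k), Z.card ≤ B → ∃ l : List (Fin k), l ≠ [] ∧
      ∀ w : Fin k → Word, (∀ i, i ∉ Z → w i = 1) → F w = cl W (ev l w) := by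
    intro Z hZ
    obtain ⟨l, h1, -, h2⟩ := local_words (r := r) hloc ∅ Z (by
      have h2 : N ^ Z.card ≤ N ^ B := Nat.pow_le_pow_right hNpos hZ
      rw [Finset.card_empty, ← hN]
      omega)
    exact ⟨l, h1, h2⟩
  -- the set of occurring letters
  let K : Finset (Fin k) := Finset.univ.filter (fun i => Occurs f z i)
  have hK : ∀ i, i ∈ K ↔ Occurs f z i := fun i => by simp [K]
  have hKl : ∀ i (l : List (Fin k)), F (Pi.mulSingle i z) = cl W (ev l (Pi.mulSingle i z)) →
      (i ∈ l ↔ i ∈ K) := by
    intro i l hl
    rw [hK]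
    exact mem_iff_occurs hz h1W hl
  have hres : ∀ w, F w = F (res K w) :=
    onW_res hloc (by omega) hz h1W K (fun i hi => (hK i).mpr hi)
  -- a point with many nontrivial letters has value zero
  have hmany : ∀ w : Fin k → Word, L < (K.filter (fun i => w i ≠ 1)).card → F w = cl W z := by
    intro w hw
    obtain ⟨Q, hQK, hQc⟩ := Finset.exists_subset_card_eq (Nat.succ_le_of_lt hw)
    obtain ⟨l, -, hl⟩ := hLoc (insert w (Q.image (fun i => (Pi.mulSingle i z : Fin k → Word)))) (by
      have h1 := Finset.card_insert_le w (Q.image (fun i => (Pi.mulSingle i z : Fin k → Word)))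
      have h2 : (Q.image (fun i => (Pi.mulSingle i z : Fin k → Word))).card ≤ Q.card :=
        Finset.card_image_le
      have h3 : L.succ = L + 1 := rfl
      omega)
    rw [hl w (Finset.mem_insert_self _ _)]
    apply cl_eq_of_notMem _ hz
    intro hmem
    have h4 := card_le_length l w Q (by
      intro i hi
      obtain ⟨hiK, hi1⟩ := Finset.mem_filter.mp (hQK hi)
      refine ⟨?_, hi1⟩
      exact (hKl i l (hl _ (Finset.mem_insert_of_mem (Finset.mem_image_of_mem _ hi)))).mpr hiK)
    have h5 := hL _ hmem
    have h3 : L.succ = L + 1 := rfl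
    omega
  -- visible letters and witnesses
  let Vis : Fin k → Prop := fun i => ∃ w : Fin k → Word, w i ≠ 1 ∧ F w ≠ cl W z
  have hwit : ∀ i, ∃ v : Fin k → Word, Vis i → i ∈ K → (v i ≠ 1 ∧ F v ≠ cl W z ∧
      (∀ j, j ∉ K → v j = 1)) := by
    intro i
    by_cases hi : Vis i
    · obtain ⟨w, hwi, hw⟩ := hi
      refine ⟨res K w, fun _ hiK => ⟨by rwa [res_apply_mem hiK], by rwa [← hres], ?_⟩⟩
      intro j hj
      exact res_apply_notMem hj
    · exact ⟨1, fun h => absurd h hi⟩
  choose v hv using hwit
  let S : Fin k → Finset (Fin k) := fun i => if Vis i ∧ i ∈ K then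
    Finset.univ.filter (fun j => v i j ≠ 1) else ∅
  have hSmem : ∀ i, Vis i → i ∈ K → ∀ j, j ∈ S i ↔ v i j ≠ 1 := by
    intro i hi hiK j
    simp [S, hi, hiK]
  have hScard : ∀ i, (S i).card ≤ L := by
    intro i
    by_cases hi : Vis i ∧ i ∈ K
    · obtain ⟨h1, h2, h3⟩ := hv i hi.1 hi.2
      by_contra hcon
      push Not at hcon
      apply h2
      apply hmany
      refine lt_of_lt_of_le hcon (Finset.card_le_card ?_)
      intro j hj
      rw [hSmem i hi.1 hi.2] at hj
      rw [Finset.mem_filter]
      refine ⟨?_, hj⟩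
      by_contra hjK
      exact hj (h3 j hjK)
    · simp only [S, if_neg hi, Finset.card_empty]
      omega
  have hSLoc : ∀ i, ∃ l : List (Fin k), l ≠ [] ∧
      ∀ w : Fin k → Word, (∀ j, j ∉ S i → w j = 1) → F w = cl W (ev l w) := by
    intro i
    apply hLocZ
    refine (hScard i).trans ?_
    rw [hB]
    have : 1 ≤ r' * (L' + 1) + 1 := by omega
    calc L ≤ 1 * (L + 1) := by omega
      _ ≤ _ := Nat.mul_le_mul_right _ this
  choose lv hlvne hlv using hSLoc
  let c : Fin k → ℕ := fun i => if Vis i then (lv i).count i else m + 1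
  -- uniqueness of counts
  have hmemlv : ∀ i, Vis i → i ∈ K → ∀ l : List (Fin k),
      (∀ w : Fin k → Word, (∀ j, j ∉ S i → w j = 1) → F w = cl W (ev l w)) → i ∈ l := by
    intro i hi hiK l hl
    rw [hKl i l]
    · exact hiK
    · apply hl
      intro j hj
      have hij : j ≠ i := by
        rintro rfl
        exact hj ((hSmem j hi hiK j).mpr (hv j hi hiK).1)
      exact Pi.mulSingle_eq_of_ne hij _
  have hc : ∀ i, Vis i → i ∈ K → ∀ l : List (Fin k),
      (∀ w : Fin k → Word, (∀ j, j ∉ S i → w j = 1) → F w = cl W (ev l w)) →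
      l.count i = c i := by
    intro i hi hiK l hl
    obtain ⟨h1, h2, h3⟩ := hv i hi hiK
    have hiS : i ∈ S i := (hSmem i hi hiK i).mpr h1
    have key := hsees k (l.filter (fun j => decide (j ∈ S i)))
      ((lv i).filter (fun j => decide (j ∈ S i)))
      (by
        intro b
        rw [ev_filter_res, ev_filter_res]
        obtain ⟨u, rfl⟩ := exists_rep b
        have e : res (S i) (fun i => cl W (u i)) = fun j => cl W (res (S i) u j) := by
          funext j
          by_cases hj : j ∈ S i <;> simp [res, hj]
        rw [e, ← cl_ev, ← cl_ev, ← hl _ (fun j hj => res_apply_notMem hj),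
          ← hlv i _ (fun j hj => res_apply_notMem hj)])
      (v i) i (by simp [hmemlv i hi hiK l hl, hiS]) h1
      (by
        rw [ev_filter_res]
        have e : res (S i) (v i) = v i := by
          funext j
          by_cases hj : j ∈ S i
          · exact res_apply_mem hj
          · rw [res_apply_notMem hj]
            rw [hSmem i hi hiK] at hj
            push Not at hj
            exact hj.symm
        rw [e, ← cl_ne hz, ← hl]
        · exact h2
        · intro j hj
          rw [hSmem i hi hiK] at hj
          push Not at hj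
          exact hj)
    rw [List.count_filter (by simpa using hiS), List.count_filter (by simpa using hiS)] at key
    rw [key]
    simp [c, hi]
  have hc1 : ∀ i ∈ K, 1 ≤ c i := by
    intro i hiK
    by_cases hi : Vis i
    · rw [← hc i hi hiK (lv i) (hlv i)]
      exact List.count_pos_iff.mpr (hmemlv i hi hiK (lv i) (hlv i))
    · simp [c, hi]
  -- the interpolating list for a finite set of letters
  have hZ : ∀ Z : Finset (Fin k), Z.card ≤ r' * (L' + 1) + 1 → ∃ l : List (Fin k),
      (∀ i ∈ l, i ∈ K) ∧ (∀ i ∈ K, i ∈ Z → l.count i = c i) ∧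
      ∀ w : Fin k → Word, (∀ i, i ∉ Z → w i = 1) → F w = cl W (ev l w) := by
    intro Z hZc
    let Zp : Finset (Fin k) := Z ∪ Z.biUnion S
    have hZZp : ∀ i, i ∈ Z → i ∈ Zp := fun i hi => Finset.mem_union_left _ hi
    have hSZp : ∀ i ∈ Z, ∀ j ∈ S i, j ∈ Zp := fun i hi j hj =>
      Finset.mem_union_right _ (Finset.mem_biUnion.mpr ⟨i, hi, hj⟩)
    have hZpc : Zp.card ≤ B := by
      refine (Finset.card_union_le _ _).trans ?_
      have h1 : (Z.biUnion S).card ≤ Z.card * L :=
        Finset.card_biUnion_le_card_mul _ _ _ (fun i _ => hScard i)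
      calc Z.card + (Z.biUnion S).card ≤ Z.card + Z.card * L := by omega
        _ = Z.card * (L + 1) := by ring
        _ ≤ B := Nat.mul_le_mul_right _ hZc
    obtain ⟨l, hl0, hl⟩ := hLocZ Zp hZpc
    have hlmem : ∀ i ∈ Zp, (i ∈ l ↔ i ∈ K) := by
      intro i hi
      apply hKl
      apply hl
      intro j hj
      exact Pi.mulSingle_eq_of_ne (fun hji => hj (by rw [hji]; exact hi)) _
    let inv : Finset (Fin k) := Zp.filter (fun i => i ∈ K ∧ ¬ Vis i)
    have hinv : ∀ i, i ∈ inv ↔ i ∈ Zp ∧ i ∈ K ∧ ¬ Vis i := fun i => by simp [inv]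
    let ls : List (Fin k) := l.filter (fun i => decide (i ∈ Zp \ inv)) ++
      flat inv.toList (fun _ => m + 1)
    refine ⟨ls, ?_, ?_, ?_⟩
    · intro i hi
      rw [List.mem_append] at hi
      rcases hi with hi | hi
      · have h1 := List.mem_of_mem_filter hi
        have h2 := List.of_mem_filter hi
        rw [decide_eq_true_iff, Finset.mem_sdiff] at h2
        exact (hlmem i h2.1).mp h1
      · have := mem_flat _ _ _ hi
        rw [Finset.mem_toList, hinv] at this
        exact this.2.1
    · intro i hiK hiZ
      show (l.filter (fun i => decide (i ∈ Zp \ inv)) ++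
        flat inv.toList (fun _ => m + 1)).count i = c i
      rw [List.count_append, count_flat _ (Finset.nodup_toList _)]
      by_cases hi : Vis i
      · have h1 : i ∉ inv := fun h => ((hinv i).mp h).2.2 hi
        have h2 : i ∈ Zp \ inv := Finset.mem_sdiff.mpr ⟨hZZp i hiZ, h1⟩
        rw [List.count_filter (by simpa using h2)]
        rw [hc i hi hiK l]
        · simp [h1]
        · intro w hw
          apply hl
          intro j hj
          apply hw
          intro hjS
          exact hj (hSZp i hiZ j hjS)
      · have h1 : i ∈ inv := (hinv i).mpr ⟨hZZp i hiZ, hiK, hi⟩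
        have h2 : (l.filter (fun i => decide (i ∈ Zp \ inv))).count i = 0 := by
          apply List.count_eq_zero_of_not_mem
          simp [h1]
        rw [h2]
        simp [h1, c, hi]
    · intro w hw
      have hwp : ∀ i, i ∉ Zp → w i = 1 := fun i hi => hw i (fun h => hi (hZZp i h))
      have hls : ev ls w = ev l (fun i => if i ∈ Zp \ inv then w i else 1) *
          ev (flat inv.toList (fun _ => m + 1)) w := by
        show ev (l.filter (fun i => decide (i ∈ Zp \ inv)) ++
          flat inv.toList (fun _ => m + 1)) w = _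
        rw [ev_append, ev_filter l (fun i => i ∈ Zp \ inv)]
      by_cases hall : ∀ i ∈ inv, w i = 1
      · have e1 : ev (flat inv.toList (fun _ => m + 1)) w = 1 := by
          rw [ev_congr _ w 1, ev_one]
          intro i hi
          have := mem_flat _ _ _ hi
          rw [Finset.mem_toList] at this
          rw [hall i this]; rfl
        have e2 : ev l (fun i => if i ∈ Zp \ inv then w i else 1) = ev l w := by
          apply ev_congr
          intro i _
          by_cases hi : i ∈ Zp \ inv
          · simp only [if_pos hi]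
          · rw [if_neg hi]
            rw [Finset.mem_sdiff] at hi
            by_cases hi1 : i ∈ Zp
            · by_cases hi2 : i ∈ inv
              · exact (hall i hi2).symm
              · exact absurd ⟨hi1, hi2⟩ hi
            · exact (hwp i hi1).symm
        rw [hls, e1, e2, mul_one]
        exact hl w hwp
      · push Not at hall
        obtain ⟨i, hi, hwi⟩ := hall
        obtain ⟨hiZ, hiK, hiV⟩ := (hinv i).mp hi
        have e1 : F w = cl W z := by
          by_contra hcon
          exact hiV ⟨w, hwi, hcon⟩
        rw [e1]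
        symm
        apply cl_eq_of_notMem _ hz
        intro hmem
        rw [hls] at hmem
        have hpw : w i ^ (m + 1) ∈ Subwords W :=
          ev_flat_factor inv.toList (fun _ => m + 1) _ (Sub_right hmem) i (by simpa using hi)
        exact pow_notMem_of_occ hm hwi (Nat.lt_succ_self m) hpw
  -- `K` is nonempty
  obtain ⟨i0, hi0⟩ : K.Nonempty := by
    by_contra hcon
    rw [Finset.not_nonempty_iff_eq_empty] at hcon
    obtain ⟨l, hl0, hl⟩ := hLoc {(fun _ => z), res K (fun _ => z)} (by
      have := Finset.card_le_two (a := (fun _ => z : Fin k → Word)) (b := res K (fun _ => z))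
      omega)
    have e1 := hl (fun _ => z) (by simp)
    have e2 := hl (res K (fun _ => z)) (by simp)
    rw [hres, e2] at e1
    have e3 : res K (fun _ => z) = (1 : Fin k → Word) := by
      funext i
      rw [hcon]
      exact res_apply_notMem (by simp)
    rw [e3, ev_one, cl_eq_iff_of_mem h1W] at e1
    obtain ⟨j, l', rfl⟩ := List.exists_cons_of_ne_nil hl0
    rw [ev_cons] at e1
    exact hz (Sub_left (e1 ▸ h1W))
  -- the second coordinate
  let lc : List (Fin k) := flat K.toList c
  have hlccount : ∀ i ∈ K, lc.count i = c i := by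
    intro i hi
    show (flat K.toList c).count i = c i
    rw [count_flat _ (Finset.nodup_toList _)]
    simp [hi]
  have hlcK : ∀ i ∈ lc, i ∈ K := by
    intro i hi
    have := mem_flat _ _ _ hi
    rwa [Finset.mem_toList] at this
  -- simultaneous interpolation
  have hsim : ∀ P : Finset (Fin k → Word), P.card ≤ r' → ∃ l : List (Fin k), l ≠ [] ∧
      ∀ w ∈ P, F w = cl W (ev l w) ∧ cl C (ev lc w) = cl C (ev l w) := by
    intro P hP
    have hex : ∀ w : Fin k → Word, ∃ T : Finset (Fin k), T ⊆ K.filter (fun i => w i ≠ 1) ∧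
        T.card ≤ L' + 1 ∧ (T = K.filter (fun i => w i ≠ 1) ∨ T.card = L' + 1) := by
      intro w
      rcases le_or_gt (K.filter (fun i => w i ≠ 1)).card L' with hle | hlt
      · exact ⟨_, Finset.Subset.refl _, by omega, Or.inl rfl⟩
      · obtain ⟨T, hT, hTc⟩ := Finset.exists_subset_card_eq (Nat.succ_le_of_lt hlt)
        exact ⟨T, hT, le_of_eq hTc, Or.inr hTc⟩
    choose T hT hTc hT' using hex
    obtain ⟨l, hl1, hl2, hl3⟩ := hZ (insert i0 (P.biUnion T)) (by
      refine (Finset.card_insert_le _ _).trans ?_
      have h1 : (P.biUnion T).card ≤ P.card * (L' + 1) :=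
        Finset.card_biUnion_le_card_mul _ _ _ (fun w _ => hTc w)
      have h2 : P.card * (L' + 1) ≤ r' * (L' + 1) := Nat.mul_le_mul_right _ hP
      omega)
    refine ⟨l, ?_, ?_⟩
    · have h1 := hl2 i0 hi0 (Finset.mem_insert_self _ _)
      have h2 := hc1 i0 hi0
      rintro rfl
      simp at h1
      omega
    · intro w hw
      have hTw : ∀ i ∈ T w, i ∈ insert i0 (P.biUnion T) := fun i hi =>
        Finset.mem_insert_of_mem (Finset.mem_biUnion.mpr ⟨w, hw, hi⟩)
      have hlres : ev l (res K w) = ev l w :=
        ev_congr _ _ _ (fun i hi => res_apply_mem (hl1 i hi))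
      have hlcres : ev lc (res K w) = ev lc w :=
        ev_congr _ _ _ (fun i hi => res_apply_mem (hlcK i hi))
      rcases hT' w with heq | hbig
      · constructor
        · rw [hres, ← hlres]
          apply hl3
          intro i hi
          by_cases hiK : i ∈ K
          · rw [res_apply_mem hiK]
            by_contra hwi
            exact hi (hTw i (by rw [heq, Finset.mem_filter]; exact ⟨hiK, hwi⟩))
          · exact res_apply_notMem hiK
        · rw [← hlres, ← hlcres]
          apply cl_ev_eq_of_counts
          intro i hi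
          have hiK : i ∈ K := by
            by_contra h
            exact hi (res_apply_notMem h)
          rw [res_apply_mem hiK] at hi
          rw [hlccount i hiK, hl2 i hiK
            (hTw i (by rw [heq, Finset.mem_filter]; exact ⟨hiK, hi⟩))]
      · have hlen : L' + 1 ≤ (ev l w).length := by
          rw [← hbig]
          apply card_le_length
          intro i hi
          obtain ⟨hiK, hi1⟩ := Finset.mem_filter.mp (hT w hi)
          refine ⟨?_, hi1⟩
          apply List.count_pos_iff.mp
          rw [hl2 i hiK (hTw i hi)]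
          exact hc1 i hiK
        have hlen' : L' + 1 ≤ (ev lc w).length := by
          rw [← hbig]
          apply card_le_length
          intro i hi
          obtain ⟨hiK, hi1⟩ := Finset.mem_filter.mp (hT w hi)
          refine ⟨?_, hi1⟩
          apply List.count_pos_iff.mp
          rw [hlccount i hiK]
          exact hc1 i hiK
        constructor
        · rw [hmany w]
          · symm
            apply cl_eq_of_notMem _ hz
            intro hmem
            have := hL _ hmem
            omega
          · have := Finset.card_le_card (hT w)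
            omega
        · apply cl_eq_of_notMem
          · intro hmem
            have := (mem_Sub_pow.mp hmem).2
            omega
          · intro hmem
            have := (mem_Sub_pow.mp hmem).2
            omega
  -- the lifted operation
  choose rep' hrep' using cl_surj (W ∪ C)
  have hpt : ∀ w : Fin k → Word, ∃ u : Word, F w = cl W u ∧ cl C (ev lc w) = cl C u := by
    intro w
    obtain ⟨l, -, hl⟩ := hsim {w} (by simp; omega)
    exact ⟨ev l w, hl w (Finset.mem_singleton_self _)⟩
  choose g hg using hpt
  let f' : (Fin k → M (W ∪ C)) → M (W ∪ C) := fun b => cl (W ∪ C) (g (fun i => rep' (b i)))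
  have hf'loc : LocalTerm r' f' := by
    intro P
    obtain ⟨l, hl0, hl⟩ := hsim (Finset.univ.image (fun j : Fin r' => fun i => rep' (P j i))) (by
      refine Finset.card_image_le.trans ?_
      simp)
    obtain ⟨t, ht⟩ := exists_freeSemigroup (S := M (W ∪ C)) l hl0
    refine ⟨t, fun j => ?_⟩
    rw [ht]
    obtain ⟨e1, e2⟩ := hl (fun i => rep' (P j i)) (Finset.mem_image_of_mem _ (Finset.mem_univ j))
    obtain ⟨e3, e4⟩ := hg (fun i => rep' (P j i))
    have e5 : (l.map (P j)).prod = cl (W ∪ C) (ev l (fun i => rep' (P j i))) := by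
      rw [cl_ev]
      unfold ev
      congr 2
      funext i
      exact (hrep' _).symm
    rw [e5]
    show cl (W ∪ C) (g (fun i => rep' (P j i))) = _
    rw [cl_union_eq]
    exact ⟨by rw [← e3, e1], by rw [← e4, e2]⟩
  obtain ⟨t0, ht0⟩ := hr' k f' hk hf'loc
  apply isTermOp_of_list f (t0.head :: t0.tail) (by simp)
  intro b
  obtain ⟨w, rfl⟩ := exists_rep b
  have e1 := ht0 (fun i => cl (W ∪ C) (w i))
  rw [lift_eq_prod] at e1
  change cl (W ∪ C) (g (fun i => rep' (cl (W ∪ C) (w i)))) =
    ev (t0.head :: t0.tail) (fun i => cl (W ∪ C) (w i)) at e1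
  rw [← cl_ev, cl_union_eq] at e1
  obtain ⟨e3, e4⟩ := hg (fun i => rep' (cl (W ∪ C) (w i)))
  rw [← e3] at e1
  show F w = ev (t0.head :: t0.tail) (fun i => cl W (w i))
  rw [← cl_ev, ← e1.1]
  show onW f w = onW f _
  unfold onW
  congr 1
  funext i
  have e5 := hrep' (cl (W ∪ C) (w i))
  rw [cl_union_eq] at e5
  exact e5.1.symm

end Pool.Agent.Lib.MP_09f634_al
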