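import Mathlib
import Pool.Agent.Lib.MP_09f634_al.Down

/-!
# Adjoining a power word
-/

set_option autoImplicit false

namespace Pool.Agent.Lib.MP_09f634_al

lemma finitelyRelated_iff_locallyDetermined {W : Set Word} (hW : W.Finite) :
    FinitelyRelated (M W) ↔ LocallyDetermined (M W) := by
  have := finite_M hW
  exact finitelyRelated_iff_local

lemma reesCon_congr {W W' : Set Word} (h : Subwords W = Subwords W') : reesCon W = reesCon W' := by
  apply Con.ext
  intro u v
  show (u = v ∨ (u ∉ Subwords W ∧ v ∉ Subwords W)) ↔ (u = v ∨ (u ∉ Subwords W' ∧ v ∉ Subwords W'))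
  rw [h]

lemma finitelyRelated_congr {W W' : Set Word} (h : Subwords W = Subwords W') :
    FinitelyRelated (M W) ↔ FinitelyRelated (M W') := by
  unfold M
  rw [reesCon_congr h]

lemma Sub_empty : Subwords ∅ = ∅ := by
  ext v
  simp [Subwords]

lemma Sub_one : Subwords {(1 : Word)} = {1} := by
  ext v
  constructor
  · rintro ⟨w, hw, p, q, h⟩
    rw [Set.mem_singleton_iff] at hw
    subst hw
    have := congrArg FreeMonoid.length h
    rw [FreeMonoid.length_mul, FreeMonoid.length_mul, FreeMonoid.length_one] at this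
    exact length_eq_zero'.mp (by omega)
  · rintro rfl
    exact ⟨1, rfl, 1, 1, by simp⟩

lemma finitelyRelated_empty : FinitelyRelated (M ∅) := by
  rw [finitelyRelated_iff_locallyDetermined Set.finite_empty]
  refine ⟨0, fun k f hk _ => ⟨FreeSemigroup.of ⟨0, hk⟩, fun b => ?_⟩⟩
  obtain ⟨u, hu⟩ := cl_surj ∅ (f b)
  obtain ⟨v, hv⟩ := cl_surj ∅ (FreeSemigroup.lift b (FreeSemigroup.of ⟨0, hk⟩))
  rw [← hu, ← hv]
  apply cl_eq_of_notMem <;> rw [Sub_empty] <;> exact Set.notMem_empty _

lemma seesCounts_one : SeesCounts {(1 : Word)} := by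
  intro k l l' _ w x hx hwx hv
  exfalso
  rw [Sub_one, Set.mem_singleton_iff] at hv
  have h1 := card_le_length l w {x} (by simpa using ⟨hx, hwx⟩)
  rw [hv] at h1
  simp at h1

open Classical in
lemma locallyDetermined_one : LocallyDetermined (M {(1 : Word)}) := by
  have hfin : Finite (M {(1 : Word)}) := finite_M (Set.finite_singleton _)
  have h1 : (1 : Word) ∈ Subwords {(1 : Word)} := by rw [Sub_one]; rfl
  obtain ⟨z, hz⟩ := exists_notMem (Set.finite_singleton (1 : Word))
  refine ⟨4, fun k f hk hloc => ?_⟩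
  let K : Finset (Fin k) := Finset.univ.filter (fun i => Occurs f z i)
  have hK : ∀ i, i ∈ K ↔ Occurs f z i := fun i => by simp [K]
  have hKl : ∀ i (l : List (Fin k)), onW f (Pi.mulSingle i z) =
      cl {(1 : Word)} (ev l (Pi.mulSingle i z)) → (i ∈ l ↔ i ∈ K) := by
    intro i l hl
    rw [hK]
    exact mem_iff_occurs hz h1 hl
  have hres : ∀ w, onW f w = onW f (res K w) :=
    onW_res hloc le_rfl hz h1 K (fun i hi => (hK i).mpr hi)
  have hLoc : ∀ P : Finset (Fin k → Word), P.card ≤ 3 →
      ∃ l : List (Fin k), l ≠ [] ∧ ∀ w ∈ P, onW f w = cl {(1 : Word)} (ev l w) := by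
    intro P hP
    exact local_words' hloc P (by omega)
  have hone : onW f 1 = cl {(1 : Word)} 1 := by
    obtain ⟨l, -, hl⟩ := hLoc {1} (by simp)
    rw [hl 1 (Finset.mem_singleton_self _), ev_one]
  have hKne : K.toList ≠ [] := by
    intro hcon
    rw [Finset.toList_eq_nil] at hcon
    obtain ⟨l, hl0, hl⟩ := hLoc {(fun _ => z)} (by simp)
    have e1 := hl (fun _ => z) (by simp)
    have e3 : res K (fun _ => z) = (1 : Fin k → Word) := by
      funext i
      rw [hcon]
      exact res_apply_notMem (by simp)
    rw [hres, e3, hone, cl_eq_iff_of_mem h1] at e1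
    obtain ⟨j, l', rfl⟩ := List.exists_cons_of_ne_nil hl0
    rw [ev_cons] at e1
    have e2 : z * ev l' (fun _ => z) ∈ Subwords {(1 : Word)} := by
      rw [← e1]; exact h1
    exact hz (Sub_left e2)
  apply isTermOp_of_list f K.toList hKne
  intro b
  obtain ⟨w, rfl⟩ := exists_rep b
  show onW f w = ev K.toList (fun i => cl {(1 : Word)} (w i))
  rw [← cl_ev]
  by_cases hall : ∀ i ∈ K, w i = 1
  · have e1 : res K w = 1 := by
      funext i
      by_cases hi : i ∈ K
      · rw [res_apply_mem hi, hall i hi]; rfl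
      · exact res_apply_notMem hi
    rw [hres, e1, hone]
    congr 1
    rw [ev_congr _ w 1, ev_one]
    intro i hi
    rw [hall i (by simpa using hi)]; rfl
  · push Not at hall
    obtain ⟨i, hi, hwi⟩ := hall
    obtain ⟨l, -, hl⟩ := hLoc {w, Pi.mulSingle i z} (by
      have := Finset.card_le_two (a := w) (b := Pi.mulSingle i z)
      omega)
    have hil : i ∈ l := (hKl i l (hl _ (by simp))).mpr hi
    rw [hl w (by simp)]
    have key : ∀ l : List (Fin k), i ∈ l → ev l w ∉ Subwords {(1 : Word)} := by
      intro l hil hmem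
      rw [Sub_one, Set.mem_singleton_iff] at hmem
      have h1 := card_le_length l w {i} (by simpa using ⟨hil, hwi⟩)
      rw [hmem] at h1
      simp at h1
    exact cl_eq_of_notMem (key l hil) (key _ (by simpa using hi))

/-- The monoid `M(a^m)` is finitely related (known: it is commutative). -/
lemma finitelyRelated_pow (a m : ℕ) : FinitelyRelated (M {FreeMonoid.of a ^ m}) := by
  have h1 := up (W := {(1 : Word)}) (a := a) (m := m) (Set.finite_singleton _)
    (Set.singleton_nonempty _)
    (by
      intro w hw x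
      rw [Set.mem_singleton_iff] at hw
      subst hw
      simp) seesCounts_one locallyDetermined_one
  rw [← finitelyRelated_iff_locallyDetermined
    ((Set.finite_singleton _).union (Set.finite_singleton _))] at h1
  rw [finitelyRelated_congr (W' := {(1 : Word)} ∪ {FreeMonoid.of a ^ m})]
  · exact h1
  · rw [Sub_union, Sub_one]
    symm
    apply Set.union_eq_self_of_subset_left
    intro v hv
    rw [Set.mem_singleton_iff] at hv
    subst hv
    exact one_mem_Sub (Set.singleton_nonempty _)

/-- If `M(W)` sees counts, adjoining a long power of a letter does not change finite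
relatedness. -/
theorem main {W : Set Word} (hW : W.Finite) (hsees : SeesCounts W) {m : ℕ}
    (hm : ∀ w ∈ W, ∀ x, occ x w ≤ m) (a : ℕ) :
    FinitelyRelated (M W) ↔ FinitelyRelated (M (W ∪ {FreeMonoid.of a ^ m})) := by
  rcases W.eq_empty_or_nonempty with rfl | hne
  · rw [Set.empty_union]
    exact ⟨fun _ => finitelyRelated_pow a m, fun _ => finitelyRelated_empty⟩
  · rw [finitelyRelated_iff_locallyDetermined hW,
      finitelyRelated_iff_locallyDetermined (hW.union (Set.finite_singleton _))]
    exact ⟨up hW hne hm hsees, down hW hne hm hsees⟩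

theorem seesCounts_of_power' {W : Set Word} {p : Word} {e : ℕ} (hp : p ≠ 1) (hpe : p ^ e ∈ Subwords W)
    (hm : ∀ w ∈ W, ∀ x, occ x w ≤ 2 * e + 2) : SeesCounts W :=
  seesCounts_of_power hm (fun _ _ _ => ⟨p, e, hp, hpe, le_rfl⟩)

theorem seesCounts_of_le_four {W : Set Word} (hm : ∀ w ∈ W, ∀ x, occ x w ≤ 4) : SeesCounts W := by
  apply seesCounts_of_power hm
  intro v hv hv1
  refine ⟨v, 1, hv1, by simpa using hv, by norm_num⟩

/-- The finite relatedness of `M(W ∪ {a^m})` does not depend on `m`, as soon as
`n ≤ 2m + 2`, where `n` bounds the numbers of occurrences of variables in words of `W`. -/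
theorem pow_independent {W : Set Word} (hW : W.Finite) {n m m' : ℕ}
    (hn : ∀ w ∈ W, ∀ x, occ x w ≤ n) (h1 : n ≤ 2 * m + 2) (h2 : n ≤ 2 * m' + 2) (a : ℕ) :
    FinitelyRelated (M (W ∪ {FreeMonoid.of a ^ m})) ↔
      FinitelyRelated (M (W ∪ {FreeMonoid.of a ^ m'})) := by
  have key : ∀ m : ℕ, n ≤ 2 * m + 2 → ∀ N : ℕ, n ≤ N → m ≤ N →
      (FinitelyRelated (M (W ∪ {FreeMonoid.of a ^ m})) ↔
        FinitelyRelated (M (W ∪ {FreeMonoid.of a ^ N}))) := by
    intro m hnm N hnN hmN
    have hocc : ∀ w ∈ W ∪ {FreeMonoid.of a ^ m}, ∀ x, occ x w ≤ max n m := by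
      rintro w (hw | hw) x
      · exact (hn w hw x).trans (le_max_left _ _)
      · rw [Set.mem_singleton_iff] at hw
        subst hw
        rw [occ_pow]
        have : occ x (FreeMonoid.of a) ≤ 1 := by
          have : occ x (FreeMonoid.of a) ≤ (FreeMonoid.toList (FreeMonoid.of a)).length :=
            List.count_le_length
          simpa using this
        calc m * occ x (FreeMonoid.of a) ≤ m * 1 := Nat.mul_le_mul_left _ this
          _ ≤ _ := by simp
    have hs : SeesCounts (W ∪ {FreeMonoid.of a ^ m}) := by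
      apply seesCounts_of_power' (p := FreeMonoid.of a) (e := m)
      · exact FreeMonoid.of_ne_one a
      · exact subset_Sub (Or.inr rfl)
      · intro w hw x
        have := hocc w hw x
        omega
    rw [main (hW.union (Set.finite_singleton _)) hs (m := N)
      (fun w hw x => (hocc w hw x).trans (by omega)) a]
    apply finitelyRelated_congr
    rw [Sub_union, Sub_union, Sub_union]
    have hsub : Subwords {FreeMonoid.of a ^ m} ⊆ Subwords {FreeMonoid.of a ^ N} := by
      intro v hv
      rw [mem_Sub_pow] at hv ⊢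
      exact ⟨hv.1, hv.2.trans hmN⟩
    rw [Set.union_assoc, Set.union_eq_self_of_subset_left hsub]
  rw [key m h1 (max n (max m m')) (by omega) (by omega),
    key m' h2 (max n (max m m')) (by omega) (by omega)]

end Pool.Agent.Lib.MP_09f634_al
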